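import Pool.Agent.Lib.MP_c8757e_W3.Defs

/-!
# W3: calculus
-/

open MeasureTheory Filter Topology Real

noncomputable section

namespace Pool.Agent.Lib.MP_c8757e_W3

open Pool.Agent.Lib.MP_c8757e_mp
open Pool.Agent.Lib.MP_c8757e_WG (Sm D Inv D_add)

section General

variable {d : ℕ} {F : Type*} [NormedAddCommGroup F] [NormedSpace ℝ F]

/-! ### smoothness -/

theorem Sm_of_at {f : E d → F} (h : ∀ x, ContDiffAt ℝ (⊤ : ℕ∞) f x) : Sm f :=
  contDiff_iff_contDiffAt.2 h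

theorem Sm_at {f : E d → F} (h : Sm f) (x : E d) : ContDiffAt ℝ (⊤ : ℕ∞) f x :=
  ContDiff.contDiffAt h

theorem Sm_const (c : F) : Sm (fun _ : E d => c) :=
  contDiff_const

theorem Sm_coord (j : Fin d) : Sm (fun x : E d => x j) :=
  (EuclideanSpace.proj (𝕜 := ℝ) j : E d →L[ℝ] ℝ).contDiff

theorem Sm_neg {f : E d → F} (hf : Sm f) : Sm (fun x => -f x) :=
  ContDiff.neg hf

theorem Sm_mul {f g : E d → ℝ} (hf : Sm f) (hg : Sm g) : Sm (fun x => f x * g x) :=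
  ContDiff.mul hf hg

theorem Sm_mulC {f g : E d → ℂ} (hf : Sm f) (hg : Sm g) : Sm (fun x => f x * g x) :=
  ContDiff.mul hf hg

theorem Sm_ofReal {f : E d → ℝ} (hf : Sm f) : Sm (fun x => (f x : ℂ)) :=
  Complex.ofRealCLM.contDiff.comp hf

theorem Sm_re {f : E d → ℂ} (hf : Sm f) : Sm (fun x => (f x).re) :=
  Complex.reCLM.contDiff.comp hf

theorem Sm_im {f : E d → ℂ} (hf : Sm f) : Sm (fun x => (f x).im) :=
  Complex.imCLM.contDiff.comp hf

theorem Sm_conj {f : E d → ℂ} (hf : Sm f) : Sm (fun x => starRingEnd ℂ (f x)) :=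
  (Complex.conjCLE : ℂ →L[ℝ] ℂ).contDiff.comp hf

theorem Sm_normSq {f : E d → ℂ} (hf : Sm f) : Sm (fun x => Complex.normSq (f x)) := by
  have e : (fun x => Complex.normSq (f x)) = fun x => (f x).re * (f x).re + (f x).im * (f x).im :=
    funext fun x => Complex.normSq_apply _
  rw [e]
  exact (Sm_mul (Sm_re hf) (Sm_re hf)).add (Sm_mul (Sm_im hf) (Sm_im hf))

theorem Sm_cexp {f : E d → ℂ} (hf : Sm f) : Sm (fun x => Complex.exp (f x)) :=
  Complex.contDiff_exp.comp hf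

theorem Sm_comp {φ : ℝ → ℝ} (hφ : ContDiff ℝ (⊤ : ℕ∞) φ) {f : E d → ℝ} (hf : Sm f) :
    Sm (fun x => φ (f x)) :=
  hφ.comp hf

theorem Sm_hol {f : ℂ → ℂ} {h : E d → ℂ} (hf : Differentiable ℂ f) (hh : Sm h) :
    Sm (fun x => f (h x)) := by
  have h1 : ContDiff ℂ (⊤ : ℕ∞) f := hf.contDiff
  exact (h1.restrict_scalars ℝ).comp hh

/-- a quotient is smooth if the numerator vanishes near the zeros of the denominator -/
theorem Sm_div {f g : E d → ℂ} (hf : Sm f) (hg : Sm g)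
    (h : ∀ x, g x ≠ 0 ∨ ∀ᶠ y in 𝓝 x, f y = 0) : Sm (fun x => f x / g x) := by
  refine Sm_of_at fun x => ?_
  rcases h x with h1 | h1
  · have h2 : ContDiffAt ℝ (⊤ : ℕ∞) (fun z : ℂ => z⁻¹) (g x) :=
      (contDiffAt_inv ℂ h1).restrict_scalars ℝ
    have h3 : ContDiffAt ℝ (⊤ : ℕ∞) (fun y => (g y)⁻¹) x := h2.comp x (Sm_at hg x)
    simp only [div_eq_mul_inv]
    exact (Sm_at hf x).mul h3
  · refine (contDiffAt_const (c := (0 : ℂ))).congr_of_eventuallyEq ?_
    filter_upwards [h1] with y hy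
    rw [hy, zero_div]

theorem Sm_divR {f g : E d → ℝ} (hf : Sm f) (hg : Sm g)
    (h : ∀ x, g x ≠ 0 ∨ ∀ᶠ y in 𝓝 x, f y = 0) : Sm (fun x => f x / g x) := by
  refine Sm_of_at fun x => ?_
  rcases h x with h1 | h1
  · exact (Sm_at hf x).div (Sm_at hg x) h1
  · refine (contDiffAt_const (c := (0 : ℝ))).congr_of_eventuallyEq ?_
    filter_upwards [h1] with y hy
    rw [hy, zero_div]

/-! ### rules for `D` -/

theorem D_congr {f g : E d → F} {x : E d} (h : ∀ᶠ y in 𝓝 x, f y = g y) (j : Fin d) :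
    D j f x = D j g x := by
  unfold D
  rw [Filter.EventuallyEq.fderiv_eq h]

theorem D_const (c : F) (j : Fin d) (x : E d) : D j (fun _ : E d => c) x = 0 := by
  unfold D
  simp

theorem D_neg {f : E d → F} (j : Fin d) (x : E d) : D j (fun x => -f x) x = -D j f x := by
  unfold D
  rw [fderiv_fun_neg]
  rfl

theorem D_mul {f g : E d → ℝ} (hf : Sm f) (hg : Sm g) (j : Fin d) (x : E d) :
    D j (fun x => f x * g x) x = D j f x * g x + f x * D j g x := by
  unfold D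
  rw [fderiv_fun_mul (hf.diff x) (hg.diff x)]
  simp only [add_apply, smul_apply, smul_eq_mul]
  ring

theorem D_cmul (c : ℝ) {f : E d → ℝ} (hf : Sm f) (j : Fin d) (x : E d) :
    D j (fun x => c * f x) x = c * D j f x := by
  rw [D_mul (Sm_const c) hf, D_const]
  ring

theorem D_ofReal {f : E d → ℝ} (hf : Sm f) (j : Fin d) (x : E d) :
    D j (fun x => (f x : ℂ)) x = ((D j f x : ℝ) : ℂ) := by
  have h1 : HasFDerivAt (fun x => (f x : ℂ)) (Complex.ofRealCLM.comp (fderiv ℝ f x)) x :=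
    Complex.ofRealCLM.hasFDerivAt.comp x (hf.diff x).hasFDerivAt
  unfold D
  rw [h1.fderiv]
  rfl

theorem D_re {f : E d → ℂ} (hf : Sm f) (j : Fin d) (x : E d) :
    D j (fun x => (f x).re) x = (D j f x).re := by
  have h1 : HasFDerivAt (fun x => (f x).re) (Complex.reCLM.comp (fderiv ℝ f x)) x :=
    Complex.reCLM.hasFDerivAt.comp x (hf.diff x).hasFDerivAt
  unfold D
  rw [h1.fderiv]
  rfl

theorem D_im {f : E d → ℂ} (hf : Sm f) (j : Fin d) (x : E d) :
    D j (fun x => (f x).im) x = (D j f x).im := by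
  have h1 : HasFDerivAt (fun x => (f x).im) (Complex.imCLM.comp (fderiv ℝ f x)) x :=
    Complex.imCLM.hasFDerivAt.comp x (hf.diff x).hasFDerivAt
  unfold D
  rw [h1.fderiv]
  rfl

theorem D_conj {f : E d → ℂ} (hf : Sm f) (j : Fin d) (x : E d) :
    D j (fun x => starRingEnd ℂ (f x)) x = starRingEnd ℂ (D j f x) := by
  have h1 : HasFDerivAt (fun x => starRingEnd ℂ (f x))
      ((Complex.conjCLE : ℂ →L[ℝ] ℂ).comp (fderiv ℝ f x)) x :=
    (Complex.conjCLE : ℂ →L[ℝ] ℂ).hasFDerivAt.comp x (hf.diff x).hasFDerivAt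
  unfold D
  rw [h1.fderiv]
  rfl

theorem D_normSq {f : E d → ℂ} (hf : Sm f) (j : Fin d) (x : E d) :
    D j (fun x => Complex.normSq (f x)) x = 2 * (starRingEnd ℂ (f x) * D j f x).re := by
  have e : (fun x => Complex.normSq (f x)) = fun x => (f x).re * (f x).re + (f x).im * (f x).im :=
    funext fun x => Complex.normSq_apply _
  rw [e, D_add (Sm_mul (Sm_re hf) (Sm_re hf)) (Sm_mul (Sm_im hf) (Sm_im hf)),
    D_mul (Sm_re hf) (Sm_re hf), D_mul (Sm_im hf) (Sm_im hf), D_re hf, D_im hf, Complex.mul_re,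
    Complex.conj_re, Complex.conj_im]
  ring

/-- a function of one coordinate -/
theorem D_fun1 {φ : ℝ → F} (hφ : Differentiable ℝ φ) (i j : Fin d) (x : E d) :
    D j (fun x : E d => φ (x i)) x = if i = j then deriv φ (x i) else 0 := by
  have h1 : HasFDerivAt (fun x : E d => x i) (EuclideanSpace.proj (𝕜 := ℝ) i : E d →L[ℝ] ℝ) x :=
    (EuclideanSpace.proj (𝕜 := ℝ) i : E d →L[ℝ] ℝ).hasFDerivAt
  have h2 := (hφ (x i)).hasDerivAt.hasFDerivAt.comp x h1
  have h3 : fderiv ℝ (fun x : E d => φ (x i)) x = _ := h2.fderiv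
  unfold D
  rw [h3]
  by_cases hij : i = j
  · subst hij
    simp
  · have h4 : (EuclideanSpace.proj (𝕜 := ℝ) i : E d →L[ℝ] ℝ) (EuclideanSpace.single j 1) = 0 := by
      simp [hij]
    simp [hij]

theorem D_coord (i j : Fin d) (x : E d) :
    D j (fun x : E d => x i) x = if i = j then 1 else 0 := by
  have h1 := D_fun1 (φ := fun s : ℝ => s) differentiable_id i j x
  rw [h1]
  simp

theorem D_hol {f : ℂ → ℂ} {h : E d → ℂ} (hf : Differentiable ℂ f) (hh : Sm h) (j : Fin d)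
    (x : E d) : D j (fun x => f (h x)) x = deriv f (h x) * D j h x := by
  unfold D
  have h1 : HasDerivAt f (deriv f (h x)) (h x) := (hf (h x)).hasDerivAt
  have h2 := h1.comp_hasFDerivAt x (hh.diff x).hasFDerivAt
  have h3 : HasFDerivAt (fun x => f (h x)) (deriv f (h x) • fderiv ℝ h x) x := h2
  rw [h3.fderiv]
  rfl

theorem D_cexp {h : E d → ℂ} (hh : Sm h) (j : Fin d) (x : E d) :
    D j (fun x => Complex.exp (h x)) x = Complex.exp (h x) * D j h x := by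
  rw [D_hol Complex.differentiable_exp hh, Complex.deriv_exp]

/-- translations -/
theorem D_transl (f : E d → F) (v : E d) (j : Fin d) (x : E d) :
    D j (fun y => f (y + v)) x = D j f (x + v) := by
  unfold D
  rw [fderiv_comp_add_right v]

end General

/-! ### the weight functions -/

theorem kap_smooth : ContDiff ℝ (⊤ : ℕ∞) kap := by
  unfold kap
  exact Real.contDiff_cos.comp (contDiff_const.mul contDiff_id)

theorem w_smooth : ContDiff ℝ (⊤ : ℕ∞) w := by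
  unfold w
  exact (contDiff_const.mul kap_smooth).neg

theorem w1_smooth : ContDiff ℝ (⊤ : ℕ∞) w1 := by
  unfold w1
  exact contDiff_const.mul (Real.contDiff_sin.comp (contDiff_const.mul contDiff_id))

theorem w2_smooth : ContDiff ℝ (⊤ : ℕ∞) w2 := by
  unfold w2
  exact contDiff_const.mul kap_smooth

theorem chi_smooth : ContDiff ℝ (⊤ : ℕ∞) chi := by
  unfold chi
  exact Real.smoothTransition.contDiff.comp (contDiff_const.add (contDiff_const.mul kap_smooth))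

theorem kk_smooth : ContDiff ℝ (⊤ : ℕ∞) kk := by
  unfold kk
  refine Real.smoothTransition.contDiff.comp ?_
  exact ((((contDiff_const.mul kap_smooth).sub contDiff_const).pow 2).sub
    contDiff_const).div_const _

theorem ww_smooth : ContDiff ℝ (⊤ : ℕ∞) ww := by
  unfold ww
  exact Real.contDiff_exp.comp (contDiff_const.mul (contDiff_id.pow 2)).neg

theorem deriv_w (s : ℝ) : deriv w s = w1 s := by
  have h1 : HasDerivAt (fun s : ℝ => 2 * π * s) (2 * π) s := by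
    simpa using (hasDerivAt_id' s).const_mul (2 * π)
  have h2 : HasDerivAt w (-(32 * (-Real.sin (2 * π * s) * (2 * π)))) s :=
    (h1.cos.const_mul 32).fun_neg
  rw [h2.deriv, w1]
  ring

theorem deriv_w1 (s : ℝ) : deriv w1 s = w2 s := by
  have h1 : HasDerivAt (fun s : ℝ => 2 * π * s) (2 * π) s := by
    simpa using (hasDerivAt_id' s).const_mul (2 * π)
  have h2 : HasDerivAt w1 (64 * π * (Real.cos (2 * π * s) * (2 * π))) s :=
    h1.sin.const_mul (64 * π)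
  rw [h2.deriv, w2, kap]
  ring

theorem kap_add (s : ℝ) (n : ℤ) : kap (s + n) = kap s := by
  unfold kap
  have h : 2 * π * (s + n) = 2 * π * s + n * (2 * π) := by ring
  rw [h, Real.cos_add_int_mul_two_pi]

theorem w_add (s : ℝ) (n : ℤ) : w (s + n) = w s := by
  unfold w
  rw [kap_add]

theorem w1_add (s : ℝ) (n : ℤ) : w1 (s + n) = w1 s := by
  unfold w1
  have h : 2 * π * (s + n) = 2 * π * s + n * (2 * π) := by ring
  rw [h, Real.sin_add_int_mul_two_pi]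

theorem w2_add (s : ℝ) (n : ℤ) : w2 (s + n) = w2 s := by
  unfold w2
  rw [kap_add]

theorem chi_add (s : ℝ) (n : ℤ) : chi (s + n) = chi s := by
  unfold chi
  rw [kap_add]

theorem kk_add (s : ℝ) (n : ℤ) : kk (s + n) = kk s := by
  unfold kk
  rw [kap_add]

theorem kap_half (s : ℝ) : kap (s - 1 / 2) = -kap s := by
  unfold kap
  have h : 2 * π * (s - 1 / 2) = 2 * π * s - π := by ring
  rw [h, Real.cos_sub_pi]

/-! ### the complex coordinate and the lattice -/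

theorem lat_apply (x : E 3) (n : Fin 3 → ℤ) (j : Fin 3) : (x + latE n) j = x j + (n j : ℝ) := by
  simp [latE]

theorem zz_smooth : Sm zz := by
  unfold zz
  exact (Sm_ofReal (Sm_coord 0)).add (Sm_mulC (Sm_const _) (Sm_ofReal (Sm_coord 1)))

theorem zz_lat (x : E 3) (n : Fin 3 → ℤ) :
    zz (x + latE n) = zz x + (n 0 : ℂ) + Complex.I * (n 1 : ℂ) := by
  unfold zz
  rw [lat_apply, lat_apply]
  push_cast
  ring

theorem D_zz0 (x : E 3) : D 0 zz x = 1 := by
  have e : D 0 zz x = D 0 (fun x : E 3 => ((x 0 : ℝ) : ℂ) + Complex.I * ((x 1 : ℝ) : ℂ)) x := rfl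
  rw [e, D_add (Sm_ofReal (Sm_coord 0)) (Sm_mulC (Sm_const _) (Sm_ofReal (Sm_coord 1))),
    Pool.Agent.Lib.MP_c8757e_WG.D_cmulC _ (Sm_ofReal (Sm_coord 1)), D_ofReal (Sm_coord 0),
    D_ofReal (Sm_coord 1), D_coord, D_coord]
  simp

theorem D_zz1 (x : E 3) : D 1 zz x = Complex.I := by
  have e : D 1 zz x = D 1 (fun x : E 3 => ((x 0 : ℝ) : ℂ) + Complex.I * ((x 1 : ℝ) : ℂ)) x := rfl
  rw [e, D_add (Sm_ofReal (Sm_coord 0)) (Sm_mulC (Sm_const _) (Sm_ofReal (Sm_coord 1))),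
    Pool.Agent.Lib.MP_c8757e_WG.D_cmulC _ (Sm_ofReal (Sm_coord 1)), D_ofReal (Sm_coord 0),
    D_ofReal (Sm_coord 1), D_coord, D_coord]
  simp

theorem D_zz2 (x : E 3) : D 2 zz x = 0 := by
  have e : D 2 zz x = D 2 (fun x : E 3 => ((x 0 : ℝ) : ℂ) + Complex.I * ((x 1 : ℝ) : ℂ)) x := rfl
  rw [e, D_add (Sm_ofReal (Sm_coord 0)) (Sm_mulC (Sm_const _) (Sm_ofReal (Sm_coord 1))),
    Pool.Agent.Lib.MP_c8757e_WG.D_cmulC _ (Sm_ofReal (Sm_coord 1)), D_ofReal (Sm_coord 0),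
    D_ofReal (Sm_coord 1), D_coord, D_coord]
  simp

theorem hh_smooth (n : Fin 3 → ℤ) : Sm (hh n) := by
  unfold hh
  refine Sm_cexp (Sm.sub (Sm_mulC (Sm_const _) zz_smooth) (Sm_const _))

theorem hh_ne (n : Fin 3 → ℤ) (x : E 3) : hh n x ≠ 0 :=
  Complex.exp_ne_zero _

/-- `|hh n|²` is the factor of the weight `ww` -/
theorem ww_lat (n : Fin 3 → ℤ) (x : E 3) :
    ww ((x + latE n) 1) = Complex.normSq (hh n x) * ww (x 1) := by
  unfold hh ww zz
  rw [lat_apply, Complex.normSq_eq_norm_sq, Complex.norm_exp, ← Real.exp_nat_mul,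
    ← Real.exp_add]
  congr 1
  have h : (4 * (π : ℂ) * Complex.I * (n 1 : ℂ) * ((x 0 : ℂ) + Complex.I * (x 1 : ℂ)) -
      2 * π * (n 1 : ℂ) ^ 2) = ((-(4 * π * n 1 * x 1) - 2 * π * (n 1) ^ 2 : ℝ) : ℂ) +
        ((4 * π * n 1 * x 0 : ℝ) : ℂ) * Complex.I := by
    have hI : Complex.I * Complex.I = -1 := Complex.I_mul_I
    push_cast
    linear_combination (4 * (π : ℂ) * (n 1 : ℂ) * (x 1 : ℂ)) * hI
  rw [h, Complex.add_re, Complex.ofReal_re, Complex.re_ofReal_mul, Complex.I_re]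
  push_cast
  ring

/-! ### periodic functions -/

private theorem Calc_cube3_bdd {f : E 3 → ℝ} (hf : Continuous f) :
    ∃ B, 0 ≤ B ∧ ∀ x : E 3, (∀ i, 0 ≤ x i ∧ x i ≤ 1) → |f x| ≤ B := by
  have hQ : IsCompact ((WithLp.toLp 2) ''
      (Set.pi Set.univ fun _ : Fin 3 => Set.Icc (0 : ℝ) 1) : Set (E 3)) :=
    (isCompact_univ_pi fun _ => isCompact_Icc).image (PiLp.continuous_toLp 2 _)
  obtain ⟨B, hB⟩ := hQ.exists_bound_of_continuousOn hf.continuousOn
  refine ⟨|B|, abs_nonneg _, fun x hx => ?_⟩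
  exact (hB x ⟨fun i => x i, fun i _ => hx i, rfl⟩).trans (le_abs_self _)

private theorem Calc_exists_cube3 (x : E 3) : ∃ (y : E 3) (n : Fin 3 → ℤ),
    (∀ i, 0 ≤ y i ∧ y i ≤ 1) ∧ x = y + latE n ∧ ∀ i, |(n i : ℝ)| ≤ |x i| + 1 := by
  refine ⟨WithLp.toLp 2 (fun i => Int.fract (x i)), fun i => ⌊x i⌋, ?_, ?_, ?_⟩
  · exact fun i => ⟨Int.fract_nonneg _, (Int.fract_lt_one _).le⟩
  · ext i
    change x i = Int.fract (x i) + (⌊x i⌋ : ℝ)
    rw [add_comm]
    exact (Int.floor_add_fract (x i)).symm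
  · intro i
    have h1 := Int.floor_le (x i)
    have h2 := Int.lt_floor_add_one (x i)
    rw [abs_le]
    have h3 := neg_abs_le (x i)
    have h4 := le_abs_self (x i)
    constructor <;> linarith

theorem per_bdd {f : E 3 → ℝ} (hf : Continuous f) (hp : ∀ n, Inv (latE n) f) :
    ∃ B, 0 ≤ B ∧ ∀ x, |f x| ≤ B := by
  obtain ⟨B, hB0, hB⟩ := Calc_cube3_bdd hf
  refine ⟨B, hB0, fun x => ?_⟩
  obtain ⟨y, n, hy, rfl, _⟩ := Calc_exists_cube3 x
  rw [hp n y]
  exact hB y hy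

theorem per_pos {f : E 3 → ℝ} (hf : Continuous f) (hp : ∀ n, Inv (latE n) f)
    (h : ∀ x, 0 < f x) : ∃ c, 0 < c ∧ ∀ x, c ≤ f x := by
  have hQ : IsCompact ((WithLp.toLp 2) ''
      (Set.pi Set.univ fun _ : Fin 3 => Set.Icc (0 : ℝ) 1) : Set (E 3)) :=
    (isCompact_univ_pi fun _ => isCompact_Icc).image (PiLp.continuous_toLp 2 _)
  have hne : ((WithLp.toLp 2) ''
      (Set.pi Set.univ fun _ : Fin 3 => Set.Icc (0 : ℝ) 1) : Set (E 3)).Nonempty :=
    ⟨_, fun _ => 0, fun _ _ => ⟨le_rfl, zero_le_one⟩, rfl⟩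
  obtain ⟨z, hz, hmin⟩ := hQ.exists_isMinOn hne hf.continuousOn
  refine ⟨f z, h z, fun x => ?_⟩
  obtain ⟨y, n, hy, rfl, _⟩ := Calc_exists_cube3 x
  rw [hp n y]
  exact hmin (a := y) ⟨fun i => y i, fun i _ => hy i, rfl⟩

/-- reduction to the unit cube -/
theorem exists_cube3 (x : E 3) : ∃ (y : E 3) (n : Fin 3 → ℤ), (∀ i, 0 ≤ y i ∧ y i ≤ 1) ∧
    x = y + latE n ∧ ∀ i, |(n i : ℝ)| ≤ |x i| + 1 :=
  Calc_exists_cube3 x

theorem cube3_bdd {f : E 3 → ℝ} (hf : Continuous f) :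
    ∃ B, 0 ≤ B ∧ ∀ x : E 3, (∀ i, 0 ≤ x i ∧ x i ≤ 1) → |f x| ≤ B :=
  Calc_cube3_bdd hf

end Pool.Agent.Lib.MP_c8757e_W3
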