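import Pool.Agent.Lib.MP_c8757e_W3.CcSm

/-!
# W3: the coefficient `c` is positive for large `K`
-/

open MeasureTheory Filter Topology Real

noncomputable section

namespace Pool.Agent.Lib.MP_c8757e_W3

open Pool.Agent.Lib.MP_c8757e_mp
open Pool.Agent.Lib.MP_c8757e_WG (Sm D Inv)

private def CcPos_R (x : E 3) : ℝ :=
  2 * π * om B0 B1 x / 3 * Th x + (2 * π * om B0 B1 x - w2 (x 1)) / 6 * (n1 x - n2 x)

private theorem CcPos_cont_om : Continuous (om B0 B1) := ContDiff.continuous omB_smooth

private theorem CcPos_cont_w2 : Continuous (fun x : E 3 => w2 (x 1)) :=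
  ContDiff.continuous (Sm_comp w2_smooth (Sm_coord 1))

private theorem CcPos_cont_ww : Continuous (fun x : E 3 => ww (x 1)) :=
  ContDiff.continuous (Sm_comp ww_smooth (Sm_coord 1))

private theorem CcPos_ww_pos (s : ℝ) : 0 < ww s := Real.exp_pos _

private theorem CcPos_R_cont : Continuous CcPos_R := by
  have h1 := CcPos_cont_om
  have h2 := CcPos_cont_w2
  have h3 : Continuous Th := ContDiff.continuous Th_smooth
  have h4 : Continuous n1 := ContDiff.continuous n1_smooth
  have h5 : Continuous n2 := ContDiff.continuous n2_smooth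
  unfold CcPos_R
  fun_prop

private theorem CcPos_R_lat (x : E 3) (n : Fin 3 → ℤ) :
    CcPos_R (x + latE n) = Complex.normSq (hh n x) * CcPos_R x := by
  unfold CcPos_R
  rw [omB_lat n x, Th_lat, n1_lat, n2_lat, lat_apply, w2_add]
  ring

private theorem CcPos_bdd : ∃ B, 0 ≤ B ∧ ∀ x, |CcPos_R x / ww (x 1)| ≤ B := by
  apply per_bdd
  · exact CcPos_R_cont.div CcPos_cont_ww fun x => (CcPos_ww_pos _).ne'
  · intro n x
    show CcPos_R (x + latE n) / ww ((x + latE n) 1) = CcPos_R x / ww (x 1)
    rw [CcPos_R_lat, ww_lat]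
    have h1 : Complex.normSq (hh n x) ≠ 0 := fun h => hh_ne n x (Complex.normSq_eq_zero.1 h)
    have h2 := (CcPos_ww_pos (x 1)).ne'
    field_simp

theorem exists_K : ∃ K c0 : ℝ, 0 < c0 ∧ ∀ x, c0 ≤ cc K x := by
  obtain ⟨B, hB0, hB⟩ := CcPos_bdd
  have hpi : (0 : ℝ) < π := Real.pi_pos
  have hpos : ∀ x, 0 < cc (B + 1) x := by
    intro x
    by_cases hb : Bad x
    · rw [cc_bad _ hb]
      have h1 : 0 < kap (x 1) := lt_trans (by norm_num) hb.1
      unfold w2
      positivity
    · have hT := Th_pos hb
      have hw := CcPos_ww_pos (x 1)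
      by_cases hk : 1 / 16 < kap (x 1) ∧ kap (x 1) < 1 / 4
      · have hnil : |kap (x 1)| < 1 / 4 := by
          rw [abs_lt]
          constructor <;> linarith [hk.1, hk.2]
        have hom : 2 * π * om B0 B1 x = w2 (x 1) := by
          rw [om_nil hnil]
          field_simp
        have hkk : 0 ≤ kk (x 1) := Real.smoothTransition.nonneg _
        have hKK : 0 ≤ KK (B + 1) x := by
          unfold KK
          rw [hom, sub_self, zero_div, zero_mul, add_zero]
          positivity
        have hw2 : 0 < w2 (x 1) := by
          have h1 : 0 < kap (x 1) := lt_trans (by norm_num) hk.1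
          unfold w2
          positivity
        unfold cc
        rw [hom]
        have : 0 ≤ KK (B + 1) x / Th x := div_nonneg hKK hT.le
        positivity
      · have hk' : kap (x 1) ≤ 1 / 16 ∨ 1 / 4 ≤ kap (x 1) := by
          by_contra hcon
          push Not at hcon
          exact hk hcon
        have h1 := kk_one hk'
        have hR : -(B * ww (x 1)) ≤ CcPos_R x := by
          have h2 := (abs_le.1 (hB x)).1
          rw [le_div_iff₀ hw] at h2
          linarith
        have hnum : 0 < 2 * π * om B0 B1 x / 3 * Th x + KK (B + 1) x := by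
          have e : 2 * π * om B0 B1 x / 3 * Th x + KK (B + 1) x =
              (B + 1) * ww (x 1) + CcPos_R x := by
            unfold KK CcPos_R
            rw [h1]
            ring
          rw [e]
          linarith
        have e2 : cc (B + 1) x =
            (2 * π * om B0 B1 x / 3 * Th x + KK (B + 1) x) / Th x / (4 * π ^ 2) := by
          unfold cc
          field_simp
        rw [e2]
        positivity
  obtain ⟨c, hc, h⟩ := per_pos (ContDiff.continuous (cc_smooth (B + 1)))
    (fun n => cc_lat (B + 1) n) hpos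
  exact ⟨B + 1, c, hc, h⟩

end Pool.Agent.Lib.MP_c8757e_W3
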