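import Pool.Agent.Lib.MP_c8757e_W3.Om

/-!
# W3: the coefficient `c`: smoothness and periodicity
-/

open MeasureTheory Filter Topology Real

noncomputable section

namespace Pool.Agent.Lib.MP_c8757e_W3

open Pool.Agent.Lib.MP_c8757e_mp
open Pool.Agent.Lib.MP_c8757e_WG (Sm D Inv)

private theorem CcSm_cont : Continuous (fun y : E 3 => kap (y 1)) :=
  (Sm_comp kap_smooth (Sm_coord (1 : Fin 3))).continuous

theorem bad_near {x : E 3} (h : Bad x) : ∀ᶠ y : E 3 in 𝓝 x, Bad y := by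
  have h1 : ∀ᶠ y : E 3 in 𝓝 x, 1 / 8 < kap (y 1) :=
    CcSm_cont.continuousAt.eventually (lt_mem_nhds h.1)
  have h2 : ∀ᶠ y : E 3 in 𝓝 x, kap (y 1) < 3 / 16 :=
    CcSm_cont.continuousAt.eventually (gt_mem_nhds h.2)
  filter_upwards [h1, h2] with y hy1 hy2
  exact ⟨hy1, hy2⟩

theorem bad_nil {x : E 3} (h : Bad x) : |kap (x 1)| < 1 / 4 := by
  obtain ⟨h1, h2⟩ := h
  rw [abs_lt]
  constructor <;> linarith

theorem bad_lat (x : E 3) (n : Fin 3 → ℤ) : Bad (x + latE n) ↔ Bad x := by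
  unfold Bad
  rw [lat_apply, kap_add]

theorem kk_bad {x : E 3} (h : Bad x) : kk (x 1) = 0 := by
  obtain ⟨h1, h2⟩ := h
  unfold kk
  apply Real.smoothTransition.zero_of_nonpos
  nlinarith

theorem kk_one {s : ℝ} (h : kap s ≤ 1 / 16 ∨ 1 / 4 ≤ kap s) : kk s = 1 := by
  unfold kk
  apply Real.smoothTransition.one_of_one_le
  rcases h with h | h
  · nlinarith
  · nlinarith

theorem KK_smooth (K : ℝ) : Sm (KK K) := by
  have h1 : Sm (fun x : E 3 => kk (x 1)) := Sm_comp kk_smooth (Sm_coord (1 : Fin 3))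
  have h2 : Sm (fun x : E 3 => ww (x 1)) := Sm_comp ww_smooth (Sm_coord (1 : Fin 3))
  have h3 : Sm (fun x : E 3 => w2 (x 1)) := Sm_comp w2_smooth (Sm_coord (1 : Fin 3))
  have h4 : Sm (fun x : E 3 => K * kk (x 1) * ww (x 1)) :=
    Sm_mul (Sm_mul (Sm_const K) h1) h2
  have h5 : Sm (fun x : E 3 => (2 * π * om B0 B1 x - w2 (x 1)) * (1 / 6)) :=
    Sm_mul (Sm.sub (Sm_mul (Sm_const (2 * π)) omB_smooth) h3) (Sm_const (1 / 6))
  have h6 : Sm (fun x : E 3 => n1 x - n2 x) := Sm.sub n1_smooth n2_smooth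
  have h7 := Sm.add h4 (Sm_mul h5 h6)
  have e : KK K = fun x => K * kk (x 1) * ww (x 1) +
      (2 * π * om B0 B1 x - w2 (x 1)) * (1 / 6) * (n1 x - n2 x) := by
    funext x
    unfold KK
    ring
  rw [e]
  exact h7

theorem KK_bad (K : ℝ) {x : E 3} (h : Bad x) : KK K x = 0 := by
  unfold KK
  rw [kk_bad h, om_nil (bad_nil h), mul_div_cancel₀ _ (by positivity : (2 * π : ℝ) ≠ 0)]
  ring

theorem KK_lat (K : ℝ) (x : E 3) (n : Fin 3 → ℤ) :
    KK K (x + latE n) = Complex.normSq (hh n x) * KK K x := by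
  have h1 := omB_lat n x
  unfold KK
  rw [ww_lat, n1_lat, n2_lat, h1, lat_apply, kk_add, w2_add]
  ring

theorem cc_smooth (K : ℝ) : Sm (cc K) := by
  have h1 : Sm (fun x => KK K x / Th x) := by
    refine Sm_divR (KK_smooth K) Th_smooth fun x => ?_
    by_cases hx : Bad x
    · right
      filter_upwards [bad_near hx] with y hy
      exact KK_bad K hy
    · exact Or.inl (Th_pos hx).ne'
  have h2 : Sm (fun x => 2 * π / 3 * om B0 B1 x) := Sm_mul (Sm_const _) omB_smooth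
  have h3 := Sm_mul (Sm.add h2 h1) (Sm_const (d := 3) ((4 * π ^ 2)⁻¹))
  have e : cc K = fun x => (2 * π / 3 * om B0 B1 x + KK K x / Th x) * (4 * π ^ 2)⁻¹ := by
    funext x
    unfold cc
    rw [div_eq_mul_inv (2 * π * om B0 B1 x / 3 + KK K x / Th x)]
    ring
  rw [e]
  exact h3

theorem cc_lat (K : ℝ) (n : Fin 3 → ℤ) : Inv (latE n) (cc K) := by
  intro x
  have h1 := omB_lat n x
  have h2 : Complex.normSq (hh n x) ≠ 0 := by
    rw [Ne, Complex.normSq_eq_zero]
    exact hh_ne n x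
  unfold cc
  rw [h1, KK_lat, Th_lat, mul_div_mul_left _ _ h2]

theorem cc_bad (K : ℝ) {x : E 3} (h : Bad x) : cc K x = w2 (x 1) / (12 * π ^ 2) := by
  have hpi : (π : ℝ) ≠ 0 := Real.pi_ne_zero
  unfold cc
  rw [KK_bad K h, om_nil (bad_nil h), mul_div_cancel₀ _ (by positivity : (2 * π : ℝ) ≠ 0)]
  field_simp
  ring

/-- the flux of the current does not depend on the fibre coordinate -/
theorem cc_flux (K : ℝ) (x : E 3) :
    cc K x * (starRingEnd ℂ (S x) * D 2 S x).im - 1 / 2 * om B0 B1 x * Complex.normSq (S x) =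
      (K * kk (x 1) * ww (x 1) - w2 (x 1) / 6 * (n1 x - n2 x)) / (2 * π) := by
  have hpi : (π : ℝ) ≠ 0 := Real.pi_ne_zero
  have hKT : KK K x / Th x * Th x = KK K x := by
    by_cases hx : Bad x
    · rw [KK_bad K hx]; simp
    · exact div_mul_cancel₀ _ (Th_pos hx).ne'
  have hT : Th x / 3 - Complex.normSq (S x) / 2 = -((n1 x - n2 x) / 6) := by
    rw [normSq_S]
    unfold Th
    ring
  rw [im_S]
  have e1 : cc K x * (2 * π * Th x) = om B0 B1 x * (Th x / 3) + KK K x / (2 * π) := by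
    have : cc K x * (2 * π * Th x) =
        (2 * π * om B0 B1 x / 3 * Th x + KK K x / Th x * Th x) * (2 * π) / (4 * π ^ 2) := by
      unfold cc
      ring
    rw [this, hKT]
    field_simp
    ring
  have e2 : cc K x * (2 * π * Th x) - 1 / 2 * om B0 B1 x * Complex.normSq (S x) =
      om B0 B1 x * (Th x / 3 - Complex.normSq (S x) / 2) + KK K x / (2 * π) := by
    rw [e1]
    ring
  rw [e2, hT]
  unfold KK
  field_simp
  ring

end Pool.Agent.Lib.MP_c8757e_W3
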