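import Pool.Agent.Lib.MP_c8757e_W3.Div

/-!
# W3: conservation of the current
-/

open MeasureTheory Filter Topology Real

noncomputable section

namespace Pool.Agent.Lib.MP_c8757e_W3

open Pool.Agent.Lib.MP_c8757e_mp
open Pool.Agent.Lib.MP_c8757e_WG (Sm D Inv)

/-- derivative of `Im (conj u v)` -/
private theorem Curr_D {u v : E 3 → ℂ} (hu : Sm u) (hv : Sm v) (j : Fin 3) (x : E 3) :
    D j (fun y => (starRingEnd ℂ (u y) * v y).im) x =
      (starRingEnd ℂ (D j u x) * v x + starRingEnd ℂ (u x) * D j v x).im := by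
  have h1 : D j (fun y => starRingEnd ℂ (u y) * v y) x =
      starRingEnd ℂ (D j u x) * v x + starRingEnd ℂ (u x) * D j v x := by
    rw [Pool.Agent.Lib.MP_c8757e_WG.D_mulC (Sm_conj hu) hv, D_conj hu]
  rw [D_im (Sm_mulC (Sm_conj hu) hv), h1]

private theorem Curr_E {b g : E 3 → ℝ} (hb : Sm b) (hg : Sm g) (i j : Fin 3) (x : E 3) :
    D i (fun y => D j g y + b y * D 2 g y + D 2 b y * g y) x =
      D i (D j g) x + (D i b x * D 2 g x + b x * D i (D 2 g) x) +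
        (D i (D 2 b) x * g x + D 2 b x * D i g x) := by
  rw [Pool.Agent.Lib.MP_c8757e_WG.D_add ((hg.D j).add (Sm_mul hb (hg.D 2))) (Sm_mul (hb.D 2) hg),
    Pool.Agent.Lib.MP_c8757e_WG.D_add (hg.D j) (Sm_mul hb (hg.D 2)),
    D_mul hb (hg.D 2), D_mul (hb.D 2) hg]

theorem current {b0 b1 c : E 3 → ℝ} {u : E 3 → ℂ} (hb0 : Sm b0) (hb1 : Sm b1) (hc : Sm c)
    (hu : Sm u) (h : First b0 b1 u) (x : E 3) :
    (starRingEnd ℂ (u x) * dvA b0 b1 c u x).im =
      D 2 (fun y => c y * (starRingEnd ℂ (u y) * D 2 u y).im -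
        1 / 2 * om b0 b1 y * Complex.normSq (u y)) x := by
  have hP0 : Sm (P0 b0 u) := Sm_P0 hb0 hu
  have hP1 : Sm (P1 b1 u) := Sm_P1 hb1 hu
  have hg : Sm (fun y => Complex.normSq (u y)) := Sm_normSq hu
  obtain ⟨g, hgdef⟩ : ∃ g : E 3 → ℝ, g = fun y => Complex.normSq (u y) := ⟨_, rfl⟩
  rw [← hgdef] at hg
  have hDg : ∀ (j : Fin 3) (y : E 3), D j g y = 2 * (starRingEnd ℂ (u y) * D j u y).re := by
    intro j y
    rw [hgdef]
    exact D_normSq hu j y
  have hj1 : ∀ y, (starRingEnd ℂ (u y) * P1 b1 u y).im =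
      1 / 2 * (D 0 g y + b0 y * D 2 g y + D 2 b0 y * g y) := by
    intro y
    have hr := congrArg Complex.re (h y)
    have hi := congrArg Complex.im (h y)
    rw [hDg, hDg, hgdef]
    unfold P0 P1 gam at hr hi
    unfold P1
    simp only [Complex.add_re, Complex.mul_re, Complex.add_im, Complex.mul_im, Complex.ofReal_re,
      Complex.ofReal_im, Complex.I_re, Complex.I_im, Complex.neg_re, Complex.neg_im,
      Complex.div_ofNat_re, Complex.div_ofNat_im, Complex.one_re, Complex.one_im,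
      Complex.conj_re, Complex.conj_im, Complex.normSq_apply] at hr hi ⊢
    linear_combination (-(u y).re) * hr - (u y).im * hi
  have hj0 : ∀ y, (starRingEnd ℂ (u y) * P0 b0 u y).im =
      -(1 / 2) * (D 1 g y + b1 y * D 2 g y + D 2 b1 y * g y) := by
    intro y
    have hr := congrArg Complex.re (h y)
    have hi := congrArg Complex.im (h y)
    rw [hDg, hDg, hgdef]
    unfold P0 P1 gam at hr hi
    unfold P0
    simp only [Complex.add_re, Complex.mul_re, Complex.add_im, Complex.mul_im, Complex.ofReal_re,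
      Complex.ofReal_im, Complex.I_re, Complex.I_im, Complex.neg_re, Complex.neg_im,
      Complex.div_ofNat_re, Complex.div_ofNat_im, Complex.one_re, Complex.one_im,
      Complex.conj_re, Complex.conj_im, Complex.normSq_apply] at hr hi ⊢
    linear_combination (u y).re * hi - (u y).im * hr
  have hDj1 : ∀ j : Fin 3, D j (fun y => (starRingEnd ℂ (u y) * P1 b1 u y).im) x =
      1 / 2 * (D j (D 0 g) x + (D j b0 x * D 2 g x + b0 x * D j (D 2 g) x) +
        (D j (D 2 b0) x * g x + D 2 b0 x * D j g x)) := by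
    intro j
    rw [show (fun y => (starRingEnd ℂ (u y) * P1 b1 u y).im) = fun y =>
      1 / 2 * (D 0 g y + b0 y * D 2 g y + D 2 b0 y * g y) from funext hj1,
      D_cmul _ (((hg.D 0).add (Sm_mul hb0 (hg.D 2))).add (Sm_mul (hb0.D 2) hg)),
      Curr_E hb0 hg]
  have hDj0 : ∀ j : Fin 3, D j (fun y => (starRingEnd ℂ (u y) * P0 b0 u y).im) x =
      -(1 / 2) * (D j (D 1 g) x + (D j b1 x * D 2 g x + b1 x * D j (D 2 g) x) +
        (D j (D 2 b1) x * g x + D 2 b1 x * D j g x)) := by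
    intro j
    rw [show (fun y => (starRingEnd ℂ (u y) * P0 b0 u y).im) = fun y =>
      -(1 / 2) * (D 1 g y + b1 y * D 2 g y + D 2 b1 y * g y) from funext hj0,
      D_cmul _ (((hg.D 1).add (Sm_mul hb1 (hg.D 2))).add (Sm_mul (hb1.D 2) hg)),
      Curr_E hb1 hg]
  have hLHS : (starRingEnd ℂ (u x) * dvA b0 b1 c u x).im =
      (D 0 (fun y => (starRingEnd ℂ (u y) * P0 b0 u y).im) x +
        b0 x * D 2 (fun y => (starRingEnd ℂ (u y) * P0 b0 u y).im) x +
        D 2 b0 x * (starRingEnd ℂ (u x) * P0 b0 u x).im) +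
      (D 1 (fun y => (starRingEnd ℂ (u y) * P1 b1 u y).im) x +
        b1 x * D 2 (fun y => (starRingEnd ℂ (u y) * P1 b1 u y).im) x +
        D 2 b1 x * (starRingEnd ℂ (u x) * P1 b1 u x).im) +
      D 2 (fun y => c y * (starRingEnd ℂ (u y) * D 2 u y).im) x := by
    have hcu : Sm (fun y => (starRingEnd ℂ (u y) * D 2 u y).im) :=
      Sm_im (Sm_mulC (Sm_conj hu) (hu.D 2))
    rw [D_mul hc hcu, Curr_D hu hP0, Curr_D hu hP0, Curr_D hu hP1, Curr_D hu hP1,
      Curr_D hu (hu.D 2), dvA_eq hb0 hb1 hc hu]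
    have e0 : P0 b0 (P0 b0 u) x = D 0 (P0 b0 u) x + (b0 x : ℂ) * D 2 (P0 b0 u) x := rfl
    have e1 : P1 b1 (P1 b1 u) x = D 1 (P1 b1 u) x + (b1 x : ℂ) * D 2 (P1 b1 u) x := rfl
    have e2 : P0 b0 u x = D 0 u x + (b0 x : ℂ) * D 2 u x := rfl
    have e3 : P1 b1 u x = D 1 u x + (b1 x : ℂ) * D 2 u x := rfl
    rw [e0, e1]
    generalize D 0 (P0 b0 u) x = A0
    generalize D 2 (P0 b0 u) x = A2
    generalize D 1 (P1 b1 u) x = B1
    generalize D 2 (P1 b1 u) x = B2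
    generalize D 2 (D 2 u) x = C2
    rw [e2, e3]
    simp only [Complex.add_re, Complex.mul_re, Complex.add_im, Complex.mul_im, Complex.ofReal_re,
      Complex.ofReal_im, Complex.conj_re, Complex.conj_im]
    ring
  have hom : Sm (om b0 b1) := om_smooth hb0 hb1
  have hcu : Sm (fun y => c y * (starRingEnd ℂ (u y) * D 2 u y).im) :=
    Sm_mul hc (Sm_im (Sm_mulC (Sm_conj hu) (hu.D 2)))
  have hog : Sm (fun y => om b0 b1 y * g y) := Sm_mul hom hg
  have hRHS : D 2 (fun y => c y * (starRingEnd ℂ (u y) * D 2 u y).im -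
      1 / 2 * om b0 b1 y * Complex.normSq (u y)) x =
      D 2 (fun y => c y * (starRingEnd ℂ (u y) * D 2 u y).im) x -
        1 / 2 * (D 2 (om b0 b1) x * g x + om b0 b1 x * D 2 g x) := by
    have e : (fun y => c y * (starRingEnd ℂ (u y) * D 2 u y).im -
        1 / 2 * om b0 b1 y * Complex.normSq (u y)) =
        fun y => c y * (starRingEnd ℂ (u y) * D 2 u y).im - 1 / 2 * (om b0 b1 y * g y) := by
      funext y
      rw [hgdef, mul_assoc]
    have hog2 : Sm (fun y => 1 / 2 * (om b0 b1 y * g y)) := Sm_mul (Sm_const _) hog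
    rw [e, Pool.Agent.Lib.MP_c8757e_WG.D_sub hcu hog2, D_cmul _ hog, D_mul hom hg]
  have hDom : D 2 (om b0 b1) x =
      D 2 (D 0 b1) x + (D 2 b0 x * D 2 b1 x + b0 x * D 2 (D 2 b1) x) - D 2 (D 1 b0) x -
        (D 2 b1 x * D 2 b0 x + b1 x * D 2 (D 2 b0) x) := by
    have s1 : Sm (fun y => D 0 b1 y + b0 y * D 2 b1 y) := (hb1.D 0).add (Sm_mul hb0 (hb1.D 2))
    have s2 : Sm (fun y => D 0 b1 y + b0 y * D 2 b1 y - D 1 b0 y) := s1.sub (hb0.D 1)
    have s3 : Sm (fun y => b1 y * D 2 b0 y) := Sm_mul hb1 (hb0.D 2)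
    have e : om b0 b1 = fun y => D 0 b1 y + b0 y * D 2 b1 y - D 1 b0 y - b1 y * D 2 b0 y := rfl
    rw [e, Pool.Agent.Lib.MP_c8757e_WG.D_sub s2 s3, Pool.Agent.Lib.MP_c8757e_WG.D_sub s1 (hb0.D 1),
      Pool.Agent.Lib.MP_c8757e_WG.D_add (hb1.D 0) (Sm_mul hb0 (hb1.D 2)),
      D_mul hb0 (hb1.D 2), D_mul hb1 (hb0.D 2)]
  have c1 := Pool.Agent.Lib.MP_c8757e_WG.D_comm hg 0 1 x
  have c2 := Pool.Agent.Lib.MP_c8757e_WG.D_comm hg 0 2 x
  have c3 := Pool.Agent.Lib.MP_c8757e_WG.D_comm hg 1 2 x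
  have c4 := Pool.Agent.Lib.MP_c8757e_WG.D_comm hb1 0 2 x
  have c5 := Pool.Agent.Lib.MP_c8757e_WG.D_comm hb0 1 2 x
  rw [hLHS, hRHS, hDj0, hDj0, hDj1, hDj1, hj0, hj1, hDom, c1, c2, c3, c4, c5]
  unfold om
  ring

end Pool.Agent.Lib.MP_c8757e_W3
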