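import Pool.Agent.Lib.MP_c8757e_WG.Two

/-!
# W3: a smooth periodic operator `div (A ∇) + V` on `ℝ³` with a Floquet band that is flat over
`ℂ² × {0}`: definitions

`D j` is the partial derivative (`MP_c8757e_WG.Calc`), `Sm` means smooth, `Inv w f` means
`f (x + w) = f x`.
-/

open MeasureTheory Filter Topology Real

noncomputable section

namespace Pool.Agent.Lib.MP_c8757e_W3

open Pool.Agent.Lib.MP_c8757e_mp
open Pool.Agent.Lib.MP_c8757e_WG (Sm D Inv)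

/-! ### operators with a shear -/

/-- `∂₀ + b ∂₂` -/
def P0 (b : E 3 → ℝ) (u : E 3 → ℂ) (x : E 3) : ℂ := D 0 u x + (b x : ℂ) * D 2 u x

/-- `∂₁ + b ∂₂` -/
def P1 (b : E 3 → ℝ) (u : E 3 → ℂ) (x : E 3) : ℂ := D 1 u x + (b x : ℂ) * D 2 u x

/-- the coefficient matrix with shear `(b0, b1)` and determinant `c` -/
def AA (b0 b1 c : E 3 → ℝ) (x : E 3) : Matrix (Fin 3) (Fin 3) ℝ :=
  !![1, 0, b0 x; 0, 1, b1 x; b0 x, b1 x, b0 x ^ 2 + b1 x ^ 2 + c x]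

/-- `div (A ∇ u)` -/
def dvA (b0 b1 c : E 3 → ℝ) (u : E 3 → ℂ) (x : E 3) : ℂ :=
  ∑ i, D i (fun y => ∑ j, (AA b0 b1 c y i j : ℂ) * D j u y) x

/-- the curvature: `[∂₀ + b0 ∂₂, ∂₁ + b1 ∂₂] = om ∂₂` -/
def om (b0 b1 : E 3 → ℝ) (x : E 3) : ℝ :=
  D 0 b1 x + b0 x * D 2 b1 x - D 1 b0 x - b1 x * D 2 b0 x

/-- the derivative of `b0 + i b1` along the fibre -/
def gam (b0 b1 : E 3 → ℝ) (x : E 3) : ℂ :=
  ((D 2 b0 x : ℝ) : ℂ) + Complex.I * ((D 2 b1 x : ℝ) : ℂ)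

/-- the first order equation -/
def First (b0 b1 : E 3 → ℝ) (u : E 3 → ℂ) : Prop :=
  ∀ x, P0 b0 u x + Complex.I * P1 b1 u x = -(1 / 2) * gam b0 b1 x * u x

/-! ### the two modes -/

/-- the complex coordinate -/
def zz (x : E 3) : ℂ := (x 0 : ℂ) + Complex.I * (x 1 : ℂ)

/-- the variable that controls all cut-offs -/
def kap (s : ℝ) : ℝ := Real.cos (2 * π * s)

/-- a cut-off: `1` if `kap s ≥ -1/4` and `0` if `kap s ≤ -1/2` -/
def chi (s : ℝ) : ℝ := Real.smoothTransition (2 + 4 * kap s)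

/-- the weight -/
def w (s : ℝ) : ℝ := -(32 * kap s)

/-- derivative of the weight -/
def w1 (s : ℝ) : ℝ := 64 * π * Real.sin (2 * π * s)

/-- second derivative of the weight -/
def w2 (s : ℝ) : ℝ := 128 * π ^ 2 * kap s

/-- the point of `δ + ℤ` next to `s` -/
def mu (δ s : ℝ) : ℝ := (round (s - δ) : ℝ) + δ

/-- a mode -/
def M (l : ℕ) (δ a : ℝ) (x : E 3) : ℂ :=
  (chi (x 1 - δ) : ℂ) * Complex.exp ((a : ℂ) +
    (l : ℂ) * ((w (x 1) : ℂ) + 2 * π * Complex.I * (x 2 : ℂ)) +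
    4 * π * Complex.I * (mu δ (x 1) : ℂ) * zz x + 2 * π * (mu δ (x 1) : ℂ) ^ 2)

/-- the defect of a mode -/
def rho (l : ℕ) (δ a : ℝ) (x : E 3) : ℂ :=
  D 0 (M l δ a) x + Complex.I * D 1 (M l δ a) x -
    Complex.I * (l : ℂ) * (w1 (x 1) : ℂ) * M l δ a x

/-- the factor of automorphy -/
def hh (n : Fin 3 → ℤ) (x : E 3) : ℂ :=
  Complex.exp (4 * π * Complex.I * (n 1 : ℂ) * zz x - 2 * π * (n 1 : ℂ) ^ 2)

def S1 : E 3 → ℂ := M 1 0 0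

def S2 : E 3 → ℂ := M 2 (1 / 2) 4

def r1 : E 3 → ℂ := rho 1 0 0

def r2 : E 3 → ℂ := rho 2 (1 / 2) 4

/-- the section -/
def S (x : E 3) : ℂ := S1 x + S2 x

/-! ### the shear -/

/-- the numerator of `eta` -/
def num (x : E 3) : ℂ :=
  Complex.I * (S1 x * r1 x + 2 / 3 * (S1 x * r2 x + S2 x * r1 x) + 1 / 2 * (S2 x * r2 x))

def eta (x : E 3) : ℂ := num x / S x ^ 2

def B0 (x : E 3) : ℝ := ((eta x).re - w1 (x 1)) / (2 * π)

def B1 (x : E 3) : ℝ := (eta x).im / (2 * π)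

/-! ### the coefficient `c` -/

def n1 (x : E 3) : ℝ := Complex.normSq (S1 x)

def n2 (x : E 3) : ℝ := Complex.normSq (S2 x)

/-- `Im (conj S ∂₂ S) / (2 π)` -/
def Th (x : E 3) : ℝ := n1 x + 2 * n2 x + 3 * (starRingEnd ℂ (S1 x) * S2 x).re

def ww (s : ℝ) : ℝ := Real.exp (-(4 * π * s ^ 2))

/-- a cut-off: `0` if `1/8 ≤ kap s ≤ 3/16` and `1` if `kap s ≤ 1/16` or `kap s ≥ 1/4` -/
def kk (s : ℝ) : ℝ := Real.smoothTransition (((32 * kap s - 5) ^ 2 - 1) / 8)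

def KK (K : ℝ) (x : E 3) : ℝ :=
  K * kk (x 1) * ww (x 1) + (2 * π * om B0 B1 x - w2 (x 1)) / 6 * (n1 x - n2 x)

def cc (K : ℝ) (x : E 3) : ℝ :=
  (2 * π * om B0 B1 x / 3 + KK K x / Th x) / (4 * π ^ 2)

/-- the strips where the two modes may have the same size -/
def Bad (x : E 3) : Prop := 1 / 8 < kap (x 1) ∧ kap (x 1) < 3 / 16

/-! ### the potential -/

def VV (K : ℝ) (x : E 3) : ℝ :=
  -(8 * π ^ 2 * cc K x) -
    (starRingEnd ℂ (S x) * (dvA B0 B1 (cc K) S x - 8 * π ^ 2 * (cc K x : ℂ) * S x)).re /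
      Complex.normSq (S x)

end Pool.Agent.Lib.MP_c8757e_W3
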