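import Pool.Agent.Lib.MP_c8757e_W3.Calc

/-!
# W3: the operator `div (A ∇)` with a shear
-/

open MeasureTheory Filter Topology Real

noncomputable section

namespace Pool.Agent.Lib.MP_c8757e_W3

open Pool.Agent.Lib.MP_c8757e_mp
open Pool.Agent.Lib.MP_c8757e_WG (Sm D Inv)

variable {b0 b1 c b : E 3 → ℝ} {u v : E 3 → ℂ}

private theorem Div_shear (j : Fin 3) (hb : Sm b) (hu : Sm u) :
    Sm (fun x => D j u x + (b x : ℂ) * D 2 u x) :=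
  (MP_c8757e_WG.Sm.D hu j).add (Sm_mulC (Sm_ofReal hb) (MP_c8757e_WG.Sm.D hu 2))

theorem Sm_P0 (hb : Sm b) (hu : Sm u) : Sm (P0 b u) := Div_shear 0 hb hu

theorem Sm_P1 (hb : Sm b) (hu : Sm u) : Sm (P1 b u) := Div_shear 1 hb hu

theorem P0_mul (hu : Sm u) (hv : Sm v) (x : E 3) :
    P0 b (fun x => u x * v x) x = P0 b u x * v x + u x * P0 b v x := by
  unfold P0
  rw [MP_c8757e_WG.D_mulC hu hv, MP_c8757e_WG.D_mulC hu hv]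
  ring

theorem P1_mul (hu : Sm u) (hv : Sm v) (x : E 3) :
    P1 b (fun x => u x * v x) x = P1 b u x * v x + u x * P1 b v x := by
  unfold P1
  rw [MP_c8757e_WG.D_mulC hu hv, MP_c8757e_WG.D_mulC hu hv]
  ring

theorem P0_add (hu : Sm u) (hv : Sm v) (x : E 3) :
    P0 b (fun x => u x + v x) x = P0 b u x + P0 b v x := by
  unfold P0
  rw [MP_c8757e_WG.D_add hu hv, MP_c8757e_WG.D_add hu hv]
  ring

theorem P1_add (hu : Sm u) (hv : Sm v) (x : E 3) :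
    P1 b (fun x => u x + v x) x = P1 b u x + P1 b v x := by
  unfold P1
  rw [MP_c8757e_WG.D_add hu hv, MP_c8757e_WG.D_add hu hv]
  ring

theorem P0_cmul (a : ℂ) (hu : Sm u) (x : E 3) :
    P0 b (fun x => a * u x) x = a * P0 b u x := by
  unfold P0
  rw [MP_c8757e_WG.D_cmulC a hu, MP_c8757e_WG.D_cmulC a hu]
  ring

theorem P1_cmul (a : ℂ) (hu : Sm u) (x : E 3) :
    P1 b (fun x => a * u x) x = a * P1 b u x := by
  unfold P1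
  rw [MP_c8757e_WG.D_cmulC a hu, MP_c8757e_WG.D_cmulC a hu]
  ring

/-- derivative of `D k u + b D 2 u` -/
private theorem Div_D (i k : Fin 3) (hb : Sm b) (hu : Sm u) (x : E 3) :
    D i (fun x => D k u x + (b x : ℂ) * D 2 u x) x =
      D i (D k u) x + (((D i b x : ℝ) : ℂ) * D 2 u x + (b x : ℂ) * D i (D 2 u) x) := by
  have h1 := MP_c8757e_WG.Sm.D hu k
  have h2 := MP_c8757e_WG.Sm.D hu 2
  rw [MP_c8757e_WG.D_add h1 (Sm_mulC (Sm_ofReal hb) h2), MP_c8757e_WG.D_mulC (Sm_ofReal hb) h2,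
    D_ofReal hb]

/-- the commutator -/
theorem P0_P1 (hb0 : Sm b0) (hb1 : Sm b1) (hu : Sm u) (x : E 3) :
    P0 b0 (P1 b1 u) x - P1 b1 (P0 b0 u) x = (om b0 b1 x : ℂ) * D 2 u x := by
  have e1 : P0 b0 (P1 b1 u) x = D 0 (fun x => D 1 u x + (b1 x : ℂ) * D 2 u x) x +
      (b0 x : ℂ) * D 2 (fun x => D 1 u x + (b1 x : ℂ) * D 2 u x) x := rfl
  have e2 : P1 b1 (P0 b0 u) x = D 1 (fun x => D 0 u x + (b0 x : ℂ) * D 2 u x) x +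
      (b1 x : ℂ) * D 2 (fun x => D 0 u x + (b0 x : ℂ) * D 2 u x) x := rfl
  rw [e1, e2, Div_D 0 1 hb1 hu, Div_D 2 1 hb1 hu, Div_D 1 0 hb0 hu, Div_D 2 0 hb0 hu,
    MP_c8757e_WG.D_comm hu 1 0, MP_c8757e_WG.D_comm hu 2 1, MP_c8757e_WG.D_comm hu 2 0]
  unfold om
  push_cast
  ring

theorem dvA_eq (hb0 : Sm b0) (hb1 : Sm b1) (hc : Sm c) (hu : Sm u) (x : E 3) :
    dvA b0 b1 c u x = (P0 b0 (P0 b0 u) x + ((D 2 b0 x : ℝ) : ℂ) * P0 b0 u x) +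
      (P1 b1 (P1 b1 u) x + ((D 2 b1 x : ℝ) : ℂ) * P1 b1 u x) +
      (((D 2 c x : ℝ) : ℂ) * D 2 u x + (c x : ℂ) * D 2 (D 2 u) x) := by
  have s0 := Sm_P0 hb0 hu
  have s1 := Sm_P1 hb1 hu
  have s2 := MP_c8757e_WG.Sm.D hu 2
  have e0 : (fun y => ∑ j, (AA b0 b1 c y 0 j : ℂ) * D j u y) = P0 b0 u := by
    funext y
    rw [Fin.sum_univ_three]
    simp [AA, P0]
  have e1 : (fun y => ∑ j, (AA b0 b1 c y 1 j : ℂ) * D j u y) = P1 b1 u := by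
    funext y
    rw [Fin.sum_univ_three]
    simp [AA, P1]
  have e2 : (fun y => ∑ j, (AA b0 b1 c y 2 j : ℂ) * D j u y) =
      fun y => ((b0 y : ℂ) * P0 b0 u y + (b1 y : ℂ) * P1 b1 u y) + (c y : ℂ) * D 2 u y := by
    funext y
    have a0 : AA b0 b1 c y 2 0 = b0 y := rfl
    have a1 : AA b0 b1 c y 2 1 = b1 y := rfl
    have a2 : AA b0 b1 c y 2 2 = b0 y ^ 2 + b1 y ^ 2 + c y := rfl
    rw [Fin.sum_univ_three, a0, a1, a2]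
    unfold P0 P1
    push_cast
    ring
  have h2 : D 2 (fun y => ((b0 y : ℂ) * P0 b0 u y + (b1 y : ℂ) * P1 b1 u y) +
      (c y : ℂ) * D 2 u y) x =
      (((D 2 b0 x : ℝ) : ℂ) * P0 b0 u x + (b0 x : ℂ) * D 2 (P0 b0 u) x +
        (((D 2 b1 x : ℝ) : ℂ) * P1 b1 u x + (b1 x : ℂ) * D 2 (P1 b1 u) x)) +
      (((D 2 c x : ℝ) : ℂ) * D 2 u x + (c x : ℂ) * D 2 (D 2 u) x) := by
    have t0 := Sm_mulC (Sm_ofReal hb0) s0
    have t1 := Sm_mulC (Sm_ofReal hb1) s1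
    have t2 := Sm_mulC (Sm_ofReal hc) s2
    rw [MP_c8757e_WG.D_add (MP_c8757e_WG.Sm.add t0 t1) t2, MP_c8757e_WG.D_add t0 t1,
      MP_c8757e_WG.D_mulC (Sm_ofReal hb0) s0, MP_c8757e_WG.D_mulC (Sm_ofReal hb1) s1,
      MP_c8757e_WG.D_mulC (Sm_ofReal hc) s2, D_ofReal hb0, D_ofReal hb1, D_ofReal hc]
  unfold dvA
  rw [Fin.sum_univ_three, e0, e1, e2, h2]
  have q0 : P0 b0 (P0 b0 u) x = D 0 (P0 b0 u) x + (b0 x : ℂ) * D 2 (P0 b0 u) x := rfl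
  have q1 : P1 b1 (P1 b1 u) x = D 1 (P1 b1 u) x + (b1 x : ℂ) * D 2 (P1 b1 u) x := rfl
  rw [q0, q1]
  ring

theorem Sm_dvA (hb0 : Sm b0) (hb1 : Sm b1) (hc : Sm c) (hu : Sm u) : Sm (dvA b0 b1 c u) := by
  have s0 := Sm_P0 hb0 hu
  have s1 := Sm_P1 hb1 hu
  have s2 := MP_c8757e_WG.Sm.D hu 2
  have e : dvA b0 b1 c u = fun x =>
      (P0 b0 (P0 b0 u) x + ((D 2 b0 x : ℝ) : ℂ) * P0 b0 u x) +
      (P1 b1 (P1 b1 u) x + ((D 2 b1 x : ℝ) : ℂ) * P1 b1 u x) +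
      (((D 2 c x : ℝ) : ℂ) * D 2 u x + (c x : ℂ) * D 2 (D 2 u) x) :=
    funext fun x => dvA_eq hb0 hb1 hc hu x
  rw [e]
  exact MP_c8757e_WG.Sm.add (MP_c8757e_WG.Sm.add
    (MP_c8757e_WG.Sm.add (Sm_P0 hb0 s0) (Sm_mulC (Sm_ofReal (MP_c8757e_WG.Sm.D hb0 2)) s0))
    (MP_c8757e_WG.Sm.add (Sm_P1 hb1 s1) (Sm_mulC (Sm_ofReal (MP_c8757e_WG.Sm.D hb1 2)) s1)))
    (MP_c8757e_WG.Sm.add (Sm_mulC (Sm_ofReal (MP_c8757e_WG.Sm.D hc 2)) s2)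
      (Sm_mulC (Sm_ofReal hc) (MP_c8757e_WG.Sm.D s2 2)))

theorem om_smooth (hb0 : Sm b0) (hb1 : Sm b1) : Sm (om b0 b1) := by
  exact MP_c8757e_WG.Sm.sub (MP_c8757e_WG.Sm.sub
    (MP_c8757e_WG.Sm.add (MP_c8757e_WG.Sm.D hb1 0) (Sm_mul hb0 (MP_c8757e_WG.Sm.D hb1 2)))
    (MP_c8757e_WG.Sm.D hb0 1)) (Sm_mul hb1 (MP_c8757e_WG.Sm.D hb0 2))

theorem om_inv {z : E 3} (h0 : Inv z b0) (h1 : Inv z b1) : Inv z (om b0 b1) := by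
  intro x
  unfold om
  rw [MP_c8757e_WG.Inv.D h1 0 x, MP_c8757e_WG.Inv.D h1 2 x, MP_c8757e_WG.Inv.D h0 1 x,
    MP_c8757e_WG.Inv.D h0 2 x, h0 x, h1 x]

theorem gam_smooth (hb0 : Sm b0) (hb1 : Sm b1) : Sm (gam b0 b1) := by
  exact MP_c8757e_WG.Sm.add (Sm_ofReal (MP_c8757e_WG.Sm.D hb0 2))
    (Sm_mulC (Sm_const Complex.I) (Sm_ofReal (MP_c8757e_WG.Sm.D hb1 2)))

theorem dvA_transl {z : E 3} (h0 : Inv z b0) (h1 : Inv z b1) (hc : Inv z c) (u : E 3 → ℂ)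
    (x : E 3) : dvA b0 b1 c u (x + z) = dvA b0 b1 c (fun y => u (y + z)) x := by
  unfold dvA
  refine Finset.sum_congr rfl fun i _ => ?_
  rw [← D_transl (fun y => ∑ j, (AA b0 b1 c y i j : ℂ) * D j u y) z i x]
  congr 1
  funext y
  refine Finset.sum_congr rfl fun j _ => ?_
  rw [D_transl u z j y]
  have hA : AA b0 b1 c (y + z) = AA b0 b1 c y := by
    unfold AA
    rw [h0 y, h1 y, hc y]
  rw [hA]

end Pool.Agent.Lib.MP_c8757e_W3
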