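import Pool.Agent.Lib.MP_c8757e_W3.Calc

/-!
# W3: the coefficient matrix
-/

open MeasureTheory Filter Topology Real

noncomputable section

namespace Pool.Agent.Lib.MP_c8757e_W3

open Pool.Agent.Lib.MP_c8757e_mp
open Pool.Agent.Lib.MP_c8757e_WG (Sm D Inv)

variable {b0 b1 c : E 3 → ℝ}

theorem AA_smooth (hb0 : Sm b0) (hb1 : Sm b1) (hc : Sm c) (i j : Fin 3) :
    Sm (fun x => AA b0 b1 c x i j) := by
  have h0 : Sm (fun _ : E 3 => (0 : ℝ)) := Sm_const 0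
  have h1 : Sm (fun _ : E 3 => (1 : ℝ)) := Sm_const 1
  have h2 : Sm (fun x => b0 x ^ 2 + b1 x ^ 2 + c x) := by
    have e : (fun x => b0 x ^ 2 + b1 x ^ 2 + c x) = fun x => b0 x * b0 x + b1 x * b1 x + c x := by
      funext x
      ring
    rw [e]
    exact ((Sm_mul hb0 hb0).add (Sm_mul hb1 hb1)).add hc
  fin_cases i <;> fin_cases j
  exacts [h1, h0, hb0, h0, h1, hb1, hb0, hb1, h2]

theorem AA_symm (x : E 3) : (AA b0 b1 c x).IsSymm := by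
  ext i j
  fin_cases i <;> fin_cases j <;> rfl

theorem AA_per (h0 : ∀ n, Inv (latE n) b0) (h1 : ∀ n, Inv (latE n) b1)
    (hc : ∀ n, Inv (latE n) c) : Periodic (AA b0 b1 c) := by
  intro x n
  unfold AA
  rw [h0 n x, h1 n x, hc n x]

theorem AA_ell {B c0 : ℝ} (h0 : ∀ x, |b0 x| ≤ B) (h1 : ∀ x, |b1 x| ≤ B) (hc0 : 0 < c0)
    (hc : ∀ x, c0 ≤ c x) : ∃ e : ℝ, EllipticWith (AA b0 b1 c) e := by
  set ε := min 1 (c0 / (4 * B ^ 2 + 1)) with hε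
  have hd : 0 < 4 * B ^ 2 + 1 := by positivity
  have hε0 : 0 < ε := lt_min one_pos (div_pos hc0 hd)
  have hε1 : ε ≤ 1 := min_le_left _ _
  have hε2 : ε * (4 * B ^ 2 + 1) ≤ c0 := by
    have : ε ≤ c0 / (4 * B ^ 2 + 1) := min_le_right _ _
    rwa [le_div_iff₀ hd] at this
  refine ⟨ε / 2, by positivity, fun x ξ => ?_⟩
  have key : ∀ p r b : ℝ, |b| ≤ B → ε * (p ^ 2 / 2 - B ^ 2 * r ^ 2) ≤ (p + b * r) ^ 2 := by
    intro p r b hb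
    have hb2 : b ^ 2 ≤ B ^ 2 :=
      sq_le_sq' (by linarith [neg_abs_le b]) (by linarith [le_abs_self b])
    have e1 : p ^ 2 / 2 - B ^ 2 * r ^ 2 ≤ (p + b * r) ^ 2 := by
      have : b ^ 2 * r ^ 2 ≤ B ^ 2 * r ^ 2 := mul_le_mul_of_nonneg_right hb2 (sq_nonneg r)
      nlinarith [sq_nonneg (p / 2 + b * r), sq_nonneg (p + 2 * (b * r))]
    by_cases hs : 0 ≤ p ^ 2 / 2 - B ^ 2 * r ^ 2
    · calc ε * (p ^ 2 / 2 - B ^ 2 * r ^ 2) ≤ 1 * (p ^ 2 / 2 - B ^ 2 * r ^ 2) :=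
            mul_le_mul_of_nonneg_right hε1 hs
        _ ≤ _ := by linarith
    · have : ε * (p ^ 2 / 2 - B ^ 2 * r ^ 2) ≤ 0 :=
        mul_nonpos_of_nonneg_of_nonpos hε0.le (by linarith)
      nlinarith [sq_nonneg (p + b * r)]
  have k0 := key (ξ 0) (ξ 2) (b0 x) (h0 x)
  have k1 := key (ξ 1) (ξ 2) (b1 x) (h1 x)
  have hcx := hc x
  have k2 : c0 * ξ 2 ^ 2 ≤ c x * ξ 2 ^ 2 := mul_le_mul_of_nonneg_right hcx (sq_nonneg _)
  have k3 : ε * (4 * B ^ 2 + 1) * ξ 2 ^ 2 ≤ c0 * ξ 2 ^ 2 :=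
    mul_le_mul_of_nonneg_right hε2 (sq_nonneg _)
  have k4 : 0 ≤ ε * B ^ 2 * ξ 2 ^ 2 := by positivity
  have e : ∑ j, ∑ l, AA b0 b1 c x j l * ξ j * ξ l =
      (ξ 0 + b0 x * ξ 2) ^ 2 + (ξ 1 + b1 x * ξ 2) ^ 2 + c x * ξ 2 ^ 2 := by
    simp only [Fin.sum_univ_three, AA, Matrix.of_apply, Matrix.cons_val', Matrix.cons_val_zero,
      Matrix.cons_val_one, Matrix.cons_val]
    ring
  rw [e, Fin.sum_univ_three]
  nlinarith

end Pool.Agent.Lib.MP_c8757e_W3
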