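import Pool.Agent.Lib.MP_c8757e_W3.EtaSm
import Pool.Agent.Lib.MP_c8757e_W3.Div

/-!
# W3: the first order equation
-/

open MeasureTheory Filter Topology Real

noncomputable section

namespace Pool.Agent.Lib.MP_c8757e_W3

open Pool.Agent.Lib.MP_c8757e_mp
open Pool.Agent.Lib.MP_c8757e_WG (Sm D Inv)

private theorem EtaEq_cmulC (c : ℂ) {f : E 3 → ℂ} (hf : Sm f) (j : Fin 3) (x : E 3) :
    D j (fun x => c * f x) x = c * D j f x := by
  have hf' : DifferentiableAt ℝ f x := (Pool.Agent.Lib.MP_c8757e_WG.Sm.diff hf) x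
  unfold D
  rw [fderiv_const_mul hf']
  rfl

private theorem EtaEq_mulC {f g : E 3 → ℂ} (hf : Sm f) (hg : Sm g) (j : Fin 3) (x : E 3) :
    D j (fun x => f x * g x) x = D j f x * g x + f x * D j g x := by
  have hf' : DifferentiableAt ℝ f x := (Pool.Agent.Lib.MP_c8757e_WG.Sm.diff hf) x
  have hg' : DifferentiableAt ℝ g x := (Pool.Agent.Lib.MP_c8757e_WG.Sm.diff hg) x
  unfold D
  rw [fderiv_fun_mul hf' hg']
  simp only [add_apply, smul_apply, smul_eq_mul]
  ring

private theorem EtaEq_D_num (x : E 3) :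
    D 2 num x = -(4 * π * S x * (r1 x + r2 x)) := by
  have h11 : Sm (fun x => S1 x * r1 x) := Sm_mulC S1_smooth r1_smooth
  have h12 : Sm (fun x => S1 x * r2 x) := Sm_mulC S1_smooth r2_smooth
  have h21 : Sm (fun x => S2 x * r1 x) := Sm_mulC S2_smooth r1_smooth
  have h22 : Sm (fun x => S2 x * r2 x) := Sm_mulC S2_smooth r2_smooth
  have hm : Sm (fun x => S1 x * r2 x + S2 x * r1 x) :=
    Pool.Agent.Lib.MP_c8757e_WG.Sm.add h12 h21
  have hm' : Sm (fun x => (2 / 3 : ℂ) * (S1 x * r2 x + S2 x * r1 x)) := Sm_mulC (Sm_const _) hm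
  have h22' : Sm (fun x => (1 / 2 : ℂ) * (S2 x * r2 x)) := Sm_mulC (Sm_const _) h22
  have ha : Sm (fun x => S1 x * r1 x + 2 / 3 * (S1 x * r2 x + S2 x * r1 x)) :=
    Pool.Agent.Lib.MP_c8757e_WG.Sm.add h11 hm'
  have hb : Sm (fun x => S1 x * r1 x + 2 / 3 * (S1 x * r2 x + S2 x * r1 x) +
      1 / 2 * (S2 x * r2 x)) :=
    Pool.Agent.Lib.MP_c8757e_WG.Sm.add ha h22'
  have e1 : D 2 num x = Complex.I * D 2 (fun x => S1 x * r1 x + 2 / 3 * (S1 x * r2 x + S2 x * r1 x)
      + 1 / 2 * (S2 x * r2 x)) x := EtaEq_cmulC Complex.I hb 2 x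
  rw [e1, Pool.Agent.Lib.MP_c8757e_WG.D_add ha h22' 2 x,
    Pool.Agent.Lib.MP_c8757e_WG.D_add h11 hm' 2 x, EtaEq_cmulC _ hm 2 x, EtaEq_cmulC _ h22 2 x,
    Pool.Agent.Lib.MP_c8757e_WG.D_add h12 h21 2 x, EtaEq_mulC S1_smooth r1_smooth,
    EtaEq_mulC S1_smooth r2_smooth, EtaEq_mulC S2_smooth r1_smooth,
    EtaEq_mulC S2_smooth r2_smooth, S1_y, S2_y, r1_y, r2_y]
  unfold S
  have hI : Complex.I * Complex.I = -1 := Complex.I_mul_I
  linear_combination (4 * π * (S1 x + S2 x) * (r1 x + r2 x)) * hI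

private theorem EtaEq_gam (x : E 3) : gam B0 B1 x = D 2 eta x / (2 * π) := by
  have hre : Sm (fun x => (eta x).re) := Sm_re eta_smooth
  have him : Sm (fun x => (eta x).im) := Sm_im eta_smooth
  have hw : Sm (fun x : E 3 => w1 (x 1)) := Sm_comp w1_smooth (Sm_coord 1)
  have hw0 : D 2 (fun x : E 3 => w1 (x 1)) x = 0 := by
    rw [D_fun1 (w1_smooth.differentiable (by simp))]
    simp
  have h0 : D 2 B0 x = (1 / (2 * π)) * (D 2 eta x).re := by
    have e : B0 = fun x => (1 / (2 * π)) * ((eta x).re - w1 (x 1)) := by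
      funext y
      unfold B0
      ring
    rw [e, D_cmul _ (Pool.Agent.Lib.MP_c8757e_WG.Sm.sub hre hw),
      Pool.Agent.Lib.MP_c8757e_WG.D_sub hre hw, hw0, D_re eta_smooth, sub_zero]
  have h1 : D 2 B1 x = (1 / (2 * π)) * (D 2 eta x).im := by
    have e : B1 = fun x => (1 / (2 * π)) * (eta x).im := by
      funext y
      unfold B1
      ring
    rw [e, D_cmul _ him, D_im eta_smooth]
  unfold gam
  rw [h0, h1]
  conv_rhs => rw [← Complex.re_add_im (D 2 eta x)]
  push_cast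
  ring

theorem first_order : First B0 B1 S := by
  intro x
  have hπ : (π : ℂ) ≠ 0 := by exact_mod_cast Real.pi_ne_zero
  have hB : (B0 x : ℂ) + Complex.I * (B1 x : ℂ) = (eta x - (w1 (x 1) : ℂ)) / (2 * π) := by
    conv_rhs => rw [← Complex.re_add_im (eta x)]
    unfold B0 B1
    push_cast
    ring
  have hL : P0 B0 S x + Complex.I * P1 B1 S x =
      r1 x + r2 x + Complex.I * eta x * (S1 x + 2 * S2 x) := by
    have e : P0 B0 S x + Complex.I * P1 B1 S x = (D 0 S x + Complex.I * D 1 S x) +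
        ((B0 x : ℂ) + Complex.I * (B1 x : ℂ)) * D 2 S x := by
      unfold P0 P1
      ring
    rw [e, S_dbar, hB, S_y]
    field_simp
    ring
  rw [hL, EtaEq_gam]
  by_cases hS : S x = 0
  · have hbad : Bad x := by
      by_contra h
      exact S_ne h hS
    obtain ⟨hb1, hb2⟩ := hbad
    have hk : |kap (x 1)| < 1 / 4 := by
      rw [abs_lt]
      constructor <;> linarith
    rw [r1_nil (by linarith), r2_nil (by linarith), eta_nil hk, hS]
    ring
  · have hη : D 2 (fun x => eta x * (S x * S x)) x = -(4 * π * S x * (r1 x + r2 x)) := by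
      rw [← EtaEq_D_num]
      congr 1
      funext y
      rw [← eta_mul y]
      ring
    have hSS : Sm (fun x => S x * S x) := Sm_mulC S_smooth S_smooth
    rw [EtaEq_mulC eta_smooth hSS, EtaEq_mulC S_smooth S_smooth, S_y] at hη
    have key : (4 * π * S x) * (r1 x + r2 x + Complex.I * eta x * (S1 x + 2 * S2 x)) =
        (4 * π * S x) * (-(1 / 2) * (D 2 eta x / (2 * π)) * S x) := by
      have e1 : (4 * π * S x) * (-(1 / 2) * (D 2 eta x / (2 * π)) * S x) =
          -(D 2 eta x * (S x * S x)) := by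
        field_simp
        ring
      rw [e1]
      linear_combination hη
    exact mul_left_cancel₀ (mul_ne_zero (mul_ne_zero (by norm_num) hπ) hS) key

end Pool.Agent.Lib.MP_c8757e_W3
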