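import Pool.Agent.Lib.MP_c8757e_W3.SecSm

/-!
# W3: the defect vanishes where the cut-off is constant
-/

open MeasureTheory Filter Topology Real

noncomputable section

namespace Pool.Agent.Lib.MP_c8757e_W3

open Pool.Agent.Lib.MP_c8757e_mp
open Pool.Agent.Lib.MP_c8757e_WG (Sm D Inv)

theorem rho_nil (l : ℕ) (δ a : ℝ) {x : E 3} (h : -(1 / 4) < kap (x 1 - δ)) :
    rho l δ a x = 0 := by
  set m := mu δ (x 1) with hm
  -- the exponent
  let e : E 3 → ℂ := fun x => (a : ℂ) +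
    (l : ℂ) * ((w (x 1) : ℂ) + 2 * π * Complex.I * (x 2 : ℂ)) +
    4 * π * Complex.I * (m : ℂ) * zz x + 2 * π * (m : ℂ) ^ 2
  have h3 : Sm (fun x : E 3 => (w (x 1) : ℂ)) := Sm_ofReal (Sm_comp w_smooth (Sm_coord 1))
  have h4 : Sm (fun x : E 3 => 2 * π * Complex.I * (x 2 : ℂ)) :=
    Sm_mulC (Sm_const _) (Sm_ofReal (Sm_coord 2))
  have h5 : Sm (fun x : E 3 => (l : ℂ) * ((w (x 1) : ℂ) + 2 * π * Complex.I * (x 2 : ℂ))) :=
    Sm_mulC (Sm_const _) (h3.add h4)
  have h6 : Sm (fun x : E 3 => 4 * π * Complex.I * (m : ℂ) * zz x) :=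
    Sm_mulC (Sm_const _) zz_smooth
  have he : Sm e := (((Sm_const (d := 3) (a : ℂ)).add h5).add h6).add
    (Sm_const (d := 3) (2 * π * (m : ℂ) ^ 2))
  have hev : ∀ᶠ y in 𝓝 x, M l δ a y = Complex.exp (e y) := by
    have hc : Continuous (fun y : E 3 => kap (y 1 - δ)) := by
      have : Continuous kap := kap_smooth.continuous
      fun_prop
    filter_upwards [SecSm_mu δ (x := x) (by linarith),
      (hc.tendsto x).eventually (lt_mem_nhds h)] with y hy hy2
    have : chi (y 1 - δ) = 1 := Real.smoothTransition.one_of_one_le (by linarith)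
    simp only [M, e]
    rw [this, hy, ← hm]
    simp
  have hDe : ∀ j : Fin 3, D j e x = (l : ℂ) * ((if (1 : Fin 3) = j then (w1 (x 1) : ℂ) else 0) +
      2 * π * Complex.I * (if (2 : Fin 3) = j then 1 else 0)) +
        4 * π * Complex.I * (m : ℂ) * D j zz x := by
    intro j
    have e1 : D j e x = D j (fun x : E 3 => (a : ℂ) +
      (l : ℂ) * ((w (x 1) : ℂ) + 2 * π * Complex.I * (x 2 : ℂ)) +
      4 * π * Complex.I * (m : ℂ) * zz x + 2 * π * (m : ℂ) ^ 2) x := rfl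
    have e2 : D j (fun x : E 3 => (w (x 1) : ℂ)) x =
        if (1 : Fin 3) = j then (w1 (x 1) : ℂ) else 0 := by
      rw [D_ofReal (Sm_comp w_smooth (Sm_coord 1)),
        D_fun1 (w_smooth.differentiable (by simp)), deriv_w]
      split_ifs <;> simp
    have e3 : D j (fun x : E 3 => (x 2 : ℂ)) x = if (2 : Fin 3) = j then 1 else 0 := by
      rw [D_ofReal (Sm_coord 2), D_coord]
      split_ifs <;> simp
    rw [e1, Pool.Agent.Lib.MP_c8757e_WG.D_add (((Sm_const (d := 3) (a : ℂ)).add h5).add h6)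
        (Sm_const (d := 3) (2 * π * (m : ℂ) ^ 2)),
      Pool.Agent.Lib.MP_c8757e_WG.D_add ((Sm_const (d := 3) (a : ℂ)).add h5) h6,
      Pool.Agent.Lib.MP_c8757e_WG.D_add (Sm_const (d := 3) (a : ℂ)) h5,
      Pool.Agent.Lib.MP_c8757e_WG.D_cmulC _ (h3.add h4),
      Pool.Agent.Lib.MP_c8757e_WG.D_add h3 h4,
      Pool.Agent.Lib.MP_c8757e_WG.D_cmulC _ (Sm_ofReal (Sm_coord 2)),
      Pool.Agent.Lib.MP_c8757e_WG.D_cmulC _ zz_smooth, D_const, D_const, e2, e3]
    ring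
  have hD : ∀ j : Fin 3, D j (M l δ a) x = M l δ a x * D j e x := by
    intro j
    rw [D_congr hev j, D_cexp he, hev.self_of_nhds]
  unfold rho
  rw [hD, hD, hDe, hDe, D_zz0, D_zz1]
  simp only [one_ne_zero, if_false, if_true, zero_add]
  have h20 : (2 : Fin 3) ≠ 0 := by decide
  have h21 : (2 : Fin 3) ≠ 1 := by decide
  simp only [h20, h21, if_false]
  linear_combination (M l δ a x * (4 * π * Complex.I * (m : ℂ))) * Complex.I_sq

theorem r1_nil {x : E 3} (h : -(1 / 4) < kap (x 1)) : r1 x = 0 := by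
  refine rho_nil 1 0 0 ?_
  rw [sub_zero]
  exact h

theorem r2_nil {x : E 3} (h : kap (x 1) < 1 / 4) : r2 x = 0 := by
  refine rho_nil 2 (1 / 2) 4 ?_
  rw [kap_half]
  linarith

end Pool.Agent.Lib.MP_c8757e_W3
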