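import Pool.Agent.Lib.MP_c8757e_W3.Nz
import Pool.Agent.Lib.MP_c8757e_W3.SecNil

/-!
# W3: the shear: smoothness and periodicity
-/

open MeasureTheory Filter Topology Real

noncomputable section

namespace Pool.Agent.Lib.MP_c8757e_W3

open Pool.Agent.Lib.MP_c8757e_mp
open Pool.Agent.Lib.MP_c8757e_WG (Sm D Inv)

private theorem EtaSm_bad {x : E 3} (h : Bad x) : |kap (x 1)| < 1 / 4 := by
  obtain ⟨h1, h2⟩ := h
  rw [abs_lt]
  constructor <;> linarith

theorem num_smooth : Sm num := by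
  have h1 := Sm_mulC S1_smooth r1_smooth
  have h2 := Sm_mulC S1_smooth r2_smooth
  have h3 := Sm_mulC S2_smooth r1_smooth
  have h4 := Sm_mulC S2_smooth r2_smooth
  exact Sm_mulC (Sm_const Complex.I)
    ((h1.add (Sm_mulC (Sm_const (2 / 3)) (h2.add h3))).add (Sm_mulC (Sm_const (1 / 2)) h4))

theorem num_lat (x : E 3) (n : Fin 3 → ℤ) : num (x + latE n) = hh n x ^ 2 * num x := by
  unfold num
  rw [S1_lat, S2_lat, r1_lat, r2_lat]
  ring

theorem nil_near {x : E 3} (h : |kap (x 1)| < 1 / 4) : ∀ᶠ y : E 3 in 𝓝 x, |kap (y 1)| < 1 / 4 := by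
  have hc : Continuous fun y : E 3 => |kap (y 1)| :=
    (kap_smooth.continuous.comp (Sm_coord (1 : Fin 3)).continuous).abs
  exact hc.continuousAt.eventually (eventually_lt_nhds h)

theorem num_nil {x : E 3} (h : |kap (x 1)| < 1 / 4) : num x = 0 := by
  have h1 := abs_lt.mp h
  unfold num
  rw [r1_nil h1.1, r2_nil h1.2]
  ring

theorem eta_nil {x : E 3} (h : |kap (x 1)| < 1 / 4) : eta x = 0 := by
  unfold eta
  rw [num_nil h, zero_div]

theorem eta_smooth : Sm eta := by
  have h1 : Sm (fun x => S x ^ 2) := by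
    have := Sm_mulC S_smooth S_smooth
    simpa only [pow_two] using this
  refine Sm_div num_smooth h1 fun x => ?_
  by_cases h : |kap (x 1)| < 1 / 4
  · right
    exact (nil_near h).mono fun y hy => num_nil hy
  · left
    exact pow_ne_zero 2 (S_ne fun hb => h (EtaSm_bad hb))

theorem eta_lat (n : Fin 3 → ℤ) : Inv (latE n) eta := by
  intro x
  unfold eta
  rw [num_lat, S_lat, mul_pow, mul_div_mul_left _ _ (pow_ne_zero 2 (hh_ne n x))]

theorem eta_mul (x : E 3) : eta x * S x ^ 2 = num x := by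
  by_cases hS : S x = 0
  · have hb : Bad x := by
      by_contra hb
      exact S_ne hb hS
    rw [num_nil (EtaSm_bad hb), hS]
    ring
  · unfold eta
    rw [div_mul_cancel₀ _ (pow_ne_zero 2 hS)]

theorem B0_smooth : Sm B0 := by
  have h1 := Sm_mul ((Sm_re eta_smooth).sub (Sm_comp w1_smooth (Sm_coord (1 : Fin 3))))
    (Sm_const ((2 * π)⁻¹))
  have e : B0 = fun x => ((eta x).re - w1 (x 1)) * (2 * π)⁻¹ := by
    funext x
    unfold B0
    rw [div_eq_mul_inv]
  rw [e]
  exact h1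

theorem B1_smooth : Sm B1 := by
  have h1 := Sm_mul (Sm_im eta_smooth) (Sm_const ((2 * π)⁻¹))
  have e : B1 = fun x => (eta x).im * (2 * π)⁻¹ := by
    funext x
    unfold B1
    rw [div_eq_mul_inv]
  rw [e]
  exact h1

theorem B0_lat (n : Fin 3 → ℤ) : Inv (latE n) B0 := by
  intro x
  unfold B0
  rw [eta_lat n x, lat_apply, w1_add]

theorem B1_lat (n : Fin 3 → ℤ) : Inv (latE n) B1 := by
  intro x
  unfold B1
  rw [eta_lat n x]

theorem B0_nil {x : E 3} (h : |kap (x 1)| < 1 / 4) : B0 x = -(w1 (x 1) / (2 * π)) := by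
  unfold B0
  rw [eta_nil h, Complex.zero_re]
  ring

theorem B1_nil {x : E 3} (h : |kap (x 1)| < 1 / 4) : B1 x = 0 := by
  unfold B1
  rw [eta_nil h, Complex.zero_im, zero_div]

end Pool.Agent.Lib.MP_c8757e_W3
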