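import Pool.Agent.Lib.MP_c8757e_W3.Nz

/-!
# W3: Floquet solutions
-/

open MeasureTheory Filter Topology Real

noncomputable section

namespace Pool.Agent.Lib.MP_c8757e_W3

open Pool.Agent.Lib.MP_c8757e_mp
open Pool.Agent.Lib.MP_c8757e_WG (Sm D Inv)

/-- the entire function of the quasimomentum `k` -/
def fk (k : Fin 2 → ℂ) (z : ℂ) : ℂ :=
  Complex.exp (2 * π * Complex.I * k 0 * z) *
    Pool.Agent.Lib.MP_c8757e_WG.th (z - (k 1 - Complex.I * k 0) / 2) ^ 2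

theorem fk_diff (k : Fin 2 → ℂ) : Differentiable ℂ (fk k) := by
  unfold fk
  refine Differentiable.mul ?_ ((Pool.Agent.Lib.MP_c8757e_WG.th_diff.comp
    (differentiable_id.sub_const _)).pow 2)
  fun_prop

theorem fk_ne (k : Fin 2 → ℂ) : (fun x => fk k (zz x) * S x) ≠ 0 := by
  obtain ⟨x, h0, h1, hS⟩ := exists_S_ne ((k 1 - Complex.I * k 0) / 2).re
    ((k 1 - Complex.I * k 0) / 2).im
  intro h
  have h2 := congrFun h x
  simp only [Pi.zero_apply] at h2
  have hz : zz x = (k 1 - Complex.I * k 0) / 2 := by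
    unfold zz
    rw [h0, h1, mul_comm Complex.I ((((k 1 - Complex.I * k 0) / 2).im : ℝ) : ℂ)]
    exact Complex.re_add_im _
  have h3 : fk k (zz x) ≠ 0 := by
    unfold fk
    rw [hz, sub_self]
    exact mul_ne_zero (Complex.exp_ne_zero _) (pow_ne_zero 2 Pool.Agent.Lib.MP_c8757e_WG.th_zero)
  exact (mul_ne_zero h3 hS) h2

theorem fk_floquet (k : Fin 2 → ℂ) (x : E 3) (n : Fin 3 → ℤ) :
    fk k (zz (x + latE n)) * S (x + latE n) =
      Complex.exp (2 * π * Complex.I * (k 0 * (n 0 : ℂ) + k 1 * (n 1 : ℂ))) *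
        (fk k (zz x) * S x) := by
  rw [zz_lat, S_lat]
  unfold fk hh
  have e : zz x + (n 0 : ℂ) + Complex.I * (n 1 : ℂ) - (k 1 - Complex.I * k 0) / 2 =
      (zz x - (k 1 - Complex.I * k 0) / 2) + ((n 0 : ℤ) : ℂ) + Complex.I * ((n 1 : ℤ) : ℂ) := by
    ring
  rw [e, Pool.Agent.Lib.MP_c8757e_WG.th_lat]
  have h : Complex.exp (2 * π * Complex.I * k 0 *
        (zz x + (n 0 : ℂ) + Complex.I * (n 1 : ℂ))) *
      Complex.exp (π * (n 1 : ℂ) ^ 2 - 2 * π * Complex.I * (n 1 : ℂ) *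
        (zz x - (k 1 - Complex.I * k 0) / 2)) ^ 2 *
      Complex.exp (4 * π * Complex.I * (n 1 : ℂ) * zz x - 2 * π * (n 1 : ℂ) ^ 2) =
      Complex.exp (2 * π * Complex.I * (k 0 * (n 0 : ℂ) + k 1 * (n 1 : ℂ))) *
        Complex.exp (2 * π * Complex.I * k 0 * zz x) := by
    rw [← Complex.exp_nat_mul, ← Complex.exp_add, ← Complex.exp_add, ← Complex.exp_add]
    congr 1
    push_cast
    ring
  linear_combination
    (Pool.Agent.Lib.MP_c8757e_WG.th (zz x - (k 1 - Complex.I * k 0) / 2) ^ 2 * S x) * h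

/-- invariance along the fibre -/
theorem sol_per (f : ℂ → ℂ) (x : E 3) (n : Fin 3 → ℤ) (h0 : n 0 = 0) (h1 : n 1 = 0) :
    f (zz (x + latE n)) * S (x + latE n) = f (zz x) * S x := by
  rw [zz_lat, S_lat]
  unfold hh
  rw [h0, h1]
  simp

end Pool.Agent.Lib.MP_c8757e_W3
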