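import Pool.Agent.Lib.MP_c8757e_W3.Div

/-!
# W3: the operator on solutions of the first order equation
-/

open MeasureTheory Filter Topology Real

noncomputable section

namespace Pool.Agent.Lib.MP_c8757e_W3

open Pool.Agent.Lib.MP_c8757e_mp
open Pool.Agent.Lib.MP_c8757e_WG (Sm D Inv)

theorem dvA_first {b0 b1 c : E 3 → ℝ} {u : E 3 → ℂ} (hb0 : Sm b0) (hb1 : Sm b1) (hc : Sm c)
    (hu : Sm u) (h : First b0 b1 u) (x : E 3) :
    dvA b0 b1 c u x =
      -(1 / 2 * (P0 b0 (gam b0 b1) x - Complex.I * P1 b1 (gam b0 b1) x) +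
        1 / 4 * (gam b0 b1 x * starRingEnd ℂ (gam b0 b1 x))) * u x -
      Complex.I * (om b0 b1 x : ℂ) * D 2 u x +
      (((D 2 c x : ℝ) : ℂ) * D 2 u x + (c x : ℂ) * D 2 (D 2 u) x) := by
  have sp := Sm_P0 hb0 hu
  have sq := Sm_P1 hb1 hu
  have sg := gam_smooth hb0 hb1
  have hf : (fun y => P0 b0 u y + Complex.I * P1 b1 u y) =
      fun y => -(1 / 2) * (gam b0 b1 y * u y) := by
    funext y
    rw [h y]
    ring
  have k0 : P0 b0 (P0 b0 u) x + Complex.I * P0 b0 (P1 b1 u) x =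
      -(1 / 2) * (P0 b0 (gam b0 b1) x * u x + gam b0 b1 x * P0 b0 u x) := by
    rw [← P0_mul sg hu, ← P0_cmul _ (Sm_mulC sg hu), ← hf,
      P0_add sp (Sm_mulC (Sm_const Complex.I) sq), P0_cmul _ sq]
  have k1 : P1 b1 (P0 b0 u) x + Complex.I * P1 b1 (P1 b1 u) x =
      -(1 / 2) * (P1 b1 (gam b0 b1) x * u x + gam b0 b1 x * P1 b1 u x) := by
    rw [← P1_mul sg hu, ← P1_cmul _ (Sm_mulC sg hu), ← hf,
      P1_add sp (Sm_mulC (Sm_const Complex.I) sq), P1_cmul _ sq]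
  have k2 := P0_P1 hb0 hb1 hu x
  have k3 := h x
  have hg : gam b0 b1 x = ((D 2 b0 x : ℝ) : ℂ) + Complex.I * ((D 2 b1 x : ℝ) : ℂ) := rfl
  have hgc : starRingEnd ℂ (gam b0 b1 x) =
      ((D 2 b0 x : ℝ) : ℂ) - Complex.I * ((D 2 b1 x : ℝ) : ℂ) := by
    rw [hg, map_add, map_mul, Complex.conj_ofReal, Complex.conj_ofReal, Complex.conj_I]
    ring
  rw [dvA_eq hb0 hb1 hc hu, hgc]
  have hI := Complex.I_sq
  generalize hpp : P0 b0 (P0 b0 u) x = pp at *
  generalize hqq : P1 b1 (P1 b1 u) x = qq at *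
  generalize hpq : P0 b0 (P1 b1 u) x = pq at *
  generalize hqp : P1 b1 (P0 b0 u) x = qp at *
  generalize hp : P0 b0 u x = p at *
  generalize hq : P1 b1 u x = q at *
  generalize hG : gam b0 b1 x = G at *
  generalize hG0 : P0 b0 (gam b0 b1) x = G0 at *
  generalize hG1 : P1 b1 (gam b0 b1) x = G1 at *
  generalize ha0 : ((D 2 b0 x : ℝ) : ℂ) = a0 at *
  generalize ha1 : ((D 2 b1 x : ℝ) : ℂ) = a1 at *
  generalize D 2 u x = du at *
  generalize u x = v at *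
  generalize (om b0 b1 x : ℂ) = o at *
  linear_combination k0 - Complex.I * k1 - Complex.I * k2 +
    (1 / 2 * (a0 - Complex.I * a1)) * k3 + (-(1 / 2) * (p - Complex.I * q)) * hg +
    (qq + a1 * q) * hI
end Pool.Agent.Lib.MP_c8757e_W3
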