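import Pool.Agent.Lib.MP_c8757e_W3.Nz

/-!
# W3: a solution with Gaussian decay
-/

open MeasureTheory Filter Topology Real

noncomputable section

namespace Pool.Agent.Lib.MP_c8757e_W3

open Pool.Agent.Lib.MP_c8757e_mp
open Pool.Agent.Lib.MP_c8757e_WG (Sm D Inv)

def fG (z : ℂ) : ℂ := Complex.exp (-((π : ℂ) * z ^ 2))

theorem fG_diff : Differentiable ℂ fG := by
  unfold fG
  fun_prop

theorem gauss_ne : (fun x => fG (zz x) * S x) ≠ 0 := by
  obtain ⟨x, _, _, hS⟩ := exists_S_ne 0 0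
  intro h
  have h2 := congrFun h x
  simp only [Pi.zero_apply] at h2
  exact (mul_ne_zero (Complex.exp_ne_zero _) hS) h2

private def Tq (x : E 3) : ℂ := Complex.exp (2 * π * ((x 1 : ℂ) * (x 1 : ℂ))) * S x

private def ph (m : ℤ) (x : E 3) : ℂ := Complex.exp (4 * π * Complex.I * (m : ℂ) * (x 0 : ℂ))

private def Gq (x : E 3) : ℂ :=
  Complex.exp (-((π : ℂ) * (zz x * zz x)) - 2 * π * ((x 1 : ℂ) * (x 1 : ℂ)))

private theorem cc_smooth' (i : Fin 3) : Sm (fun x : E 3 => ((x i : ℝ) : ℂ)) :=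
  Sm_ofReal (Sm_coord i)

private theorem Tq_smooth : Sm Tq :=
  Sm_mulC (Sm_cexp (Sm_mulC (Sm_const _) (Sm_mulC (cc_smooth' 1) (cc_smooth' 1)))) S_smooth

private theorem ph_smooth (m : ℤ) : Sm (ph m) :=
  Sm_cexp (Sm_mulC (Sm_const _) (cc_smooth' 0))

private theorem in1_smooth : Sm (fun x : E 3 => -((π : ℂ) * (zz x * zz x))) :=
  Sm_neg (Sm_mulC (Sm_const _) (Sm_mulC zz_smooth zz_smooth))

private theorem in2_smooth : Sm (fun x : E 3 => 2 * (π : ℂ) * ((x 1 : ℂ) * (x 1 : ℂ))) :=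
  Sm_mulC (Sm_const _) (Sm_mulC (cc_smooth' 1) (cc_smooth' 1))

private theorem in_smooth :
    Sm (fun x : E 3 => -((π : ℂ) * (zz x * zz x)) - 2 * (π : ℂ) * ((x 1 : ℂ) * (x 1 : ℂ))) :=
  in1_smooth.sub in2_smooth

private theorem Gq_smooth : Sm Gq := Sm_cexp in_smooth

private theorem Tq_lat (x : E 3) (n : Fin 3 → ℤ) : Tq (x + latE n) = ph (n 1) x * Tq x := by
  unfold Tq
  rw [S_lat, lat_apply]
  have h : Complex.exp (2 * π * (((x 1 + (n 1 : ℝ) : ℝ) : ℂ) * ((x 1 + (n 1 : ℝ) : ℝ) : ℂ))) *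
      hh n x = ph (n 1) x * Complex.exp (2 * π * ((x 1 : ℂ) * (x 1 : ℂ))) := by
    unfold hh ph
    rw [← Complex.exp_add, ← Complex.exp_add]
    congr 1
    unfold zz
    push_cast
    linear_combination (4 * (π : ℂ) * (n 1 : ℂ) * (x 1 : ℂ)) * Complex.I_sq
  rw [← mul_assoc, h, mul_assoc]

private theorem norm_ph (m : ℤ) (x : E 3) : ‖ph m x‖ = 1 := by
  unfold ph
  have : (4 * π * Complex.I * (m : ℂ) * (x 0 : ℂ)) =
      ((4 * π * m * x 0 : ℝ) : ℂ) * Complex.I := by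
    push_cast
    ring
  rw [this, Complex.norm_exp_ofReal_mul_I]

private theorem D_cc (i j : Fin 3) (x : E 3) :
    D j (fun x : E 3 => ((x i : ℝ) : ℂ)) x = if i = j then 1 else 0 := by
  rw [D_ofReal (Sm_coord i), D_coord]
  split_ifs <;> simp

private theorem norm_D_ph (m : ℤ) (j : Fin 3) (x : E 3) :
    ‖D j (ph m) x‖ ≤ 4 * π * |(m : ℝ)| := by
  have h1 : D j (ph m) x = ph m x * (4 * π * Complex.I * (m : ℂ) *
      (if (0 : Fin 3) = j then 1 else 0)) := by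
    unfold ph
    rw [D_cexp (Sm_mulC (Sm_const _) (cc_smooth' 0)),
      MP_c8757e_WG.D_cmulC _ (cc_smooth' 0), D_cc]
  rw [h1, norm_mul, norm_ph, one_mul, norm_mul]
  have h2 : ‖(4 * π * Complex.I * (m : ℂ))‖ = 4 * π * |(m : ℝ)| := by
    rw [norm_mul, norm_mul, norm_mul, Complex.norm_I, mul_one, Complex.norm_real,
      Complex.norm_ofNat, Complex.norm_intCast, Real.norm_of_nonneg Real.pi_pos.le]
  rw [h2]
  have h3 : ‖(if (0 : Fin 3) = j then (1 : ℂ) else 0)‖ ≤ 1 := by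
    split_ifs <;> simp
  calc 4 * π * |(m : ℝ)| * ‖(if (0 : Fin 3) = j then (1 : ℂ) else 0)‖
      ≤ 4 * π * |(m : ℝ)| * 1 := mul_le_mul_of_nonneg_left h3 (by positivity)
    _ = _ := by rw [mul_one]

private theorem norm_Tq : ∃ B : ℝ, 0 ≤ B ∧ ∀ x, ‖Tq x‖ ≤ B := by
  obtain ⟨B, hB0, hB⟩ := cube3_bdd (f := fun x => ‖Tq x‖) (ContDiff.continuous Tq_smooth).norm
  refine ⟨B, hB0, fun x => ?_⟩
  obtain ⟨y, n, hy, hx, -⟩ := exists_cube3 x
  rw [hx, Tq_lat, norm_mul, norm_ph, one_mul]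
  exact (le_abs_self _).trans (hB y hy)

private theorem norm_DTq : ∃ C : ℝ, 0 ≤ C ∧ ∀ (j : Fin 3) (x : E 3),
    ‖D j Tq x‖ ≤ C * (1 + |x 1|) := by
  obtain ⟨B, hB0, hB⟩ := norm_Tq
  have h1 : ∀ j : Fin 3, ∃ B' : ℝ, 0 ≤ B' ∧ ∀ x : E 3, (∀ i, 0 ≤ x i ∧ x i ≤ 1) →
      |‖D j Tq x‖| ≤ B' := fun j =>
    cube3_bdd (f := fun x => ‖D j Tq x‖) (ContDiff.continuous (Tq_smooth.D j)).norm
  choose B' hB'0 hB' using h1
  have hS0 : 0 ≤ ∑ j, B' j := Finset.sum_nonneg fun j _ => hB'0 j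
  have hpi := Real.pi_pos
  refine ⟨4 * π * B + ∑ j, B' j, by positivity, fun j x => ?_⟩
  have h2 : B' j ≤ ∑ j, B' j :=
    Finset.single_le_sum (f := fun j => B' j) (fun i _ => hB'0 i) (Finset.mem_univ j)
  obtain ⟨y, n, hy, hx, hn⟩ := exists_cube3 x
  have h0 := MP_c8757e_WG.D_shift Tq_smooth (ph_smooth (n 1)) (fun y => Tq_lat y n) j y
  have hD : ‖D j (ph (n 1)) y‖ ≤ 4 * π * (|x 1| + 1) :=
    (norm_D_ph (n 1) j y).trans (mul_le_mul_of_nonneg_left (hn 1) (by positivity))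
  have h3 : ‖D j Tq x‖ ≤ 4 * π * (|x 1| + 1) * B + B' j := by
    have h4 : D j Tq x = D j (ph (n 1)) y * Tq y + ph (n 1) y * D j Tq y := by
      rw [← h0, ← hx]
    rw [h4]
    refine (norm_add_le _ _).trans ?_
    rw [norm_mul, norm_mul, norm_ph, one_mul]
    exact add_le_add (mul_le_mul hD (hB y) (norm_nonneg _) (by positivity))
      ((le_abs_self _).trans (hB' j y hy))
  have h5 := abs_nonneg (x 1)
  calc ‖D j Tq x‖ ≤ 4 * π * (|x 1| + 1) * B + B' j := h3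
    _ ≤ 4 * π * (|x 1| + 1) * B + (∑ j, B' j) * (1 + |x 1|) := by nlinarith
    _ = _ := by ring

private theorem norm_Gq (x : E 3) : ‖Gq x‖ = Real.exp (-(π * (x 0 ^ 2 + x 1 ^ 2))) := by
  unfold Gq
  rw [Complex.norm_exp]
  congr 1
  unfold zz
  have e : (-((π : ℂ) * (((x 0 : ℂ) + Complex.I * (x 1 : ℂ)) *
      ((x 0 : ℂ) + Complex.I * (x 1 : ℂ)))) - 2 * π * ((x 1 : ℂ) * (x 1 : ℂ))) =
      ((-(π * (x 0 ^ 2 + x 1 ^ 2)) : ℝ) : ℂ) +
        ((-(2 * π * x 0 * x 1) : ℝ) : ℂ) * Complex.I := by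
    push_cast
    linear_combination (-((π : ℂ) * (x 1 : ℂ) ^ 2)) * Complex.I_sq
  rw [e, Complex.add_re, Complex.ofReal_re, Complex.re_ofReal_mul, Complex.I_re, mul_zero,
    add_zero]

private theorem norm_DGq (j : Fin 3) (x : E 3) :
    ‖D j Gq x‖ ≤ 6 * π * (|x 0| + |x 1|) * Real.exp (-(π * (x 0 ^ 2 + x 1 ^ 2))) := by
  have hpi := Real.pi_pos
  have h1 : D j Gq x = Gq x * (-((π : ℂ) * (D j zz x * zz x + zz x * D j zz x)) -
      2 * (π : ℂ) * ((if (1 : Fin 3) = j then 1 else 0) * (x 1 : ℂ) +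
        (x 1 : ℂ) * (if (1 : Fin 3) = j then 1 else 0))) := by
    unfold Gq
    rw [D_cexp in_smooth, MP_c8757e_WG.D_sub in1_smooth in2_smooth, D_neg,
      MP_c8757e_WG.D_cmulC _ (Sm_mulC zz_smooth zz_smooth),
      MP_c8757e_WG.D_mulC zz_smooth zz_smooth,
      MP_c8757e_WG.D_cmulC _ (Sm_mulC (cc_smooth' 1) (cc_smooth' 1)),
      MP_c8757e_WG.D_mulC (cc_smooth' 1) (cc_smooth' 1), D_cc]
  have hz : ‖zz x‖ ≤ |x 0| + |x 1| := by
    unfold zz
    refine (norm_add_le _ _).trans ?_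
    rw [norm_mul, Complex.norm_I, one_mul, Complex.norm_real, Complex.norm_real,
      Real.norm_eq_abs, Real.norm_eq_abs]
  have hDz : ‖D j zz x‖ ≤ 1 := by
    fin_cases j
    · have e := D_zz0 x
      simp only [Fin.zero_eta]
      rw [e]
      simp
    · have e := D_zz1 x
      simp only [Fin.mk_one]
      rw [e]
      simp
    · have e := D_zz2 x
      simp only [Fin.reduceFinMk]
      rw [e]
      simp
  have hi : ‖(if (1 : Fin 3) = j then (1 : ℂ) else 0)‖ ≤ 1 := by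
    split_ifs <;> simp
  have h0 := abs_nonneg (x 0)
  have h1' := abs_nonneg (x 1)
  have h2 : ‖(-((π : ℂ) * (D j zz x * zz x + zz x * D j zz x)) -
      2 * (π : ℂ) * ((if (1 : Fin 3) = j then 1 else 0) * (x 1 : ℂ) +
        (x 1 : ℂ) * (if (1 : Fin 3) = j then 1 else 0)))‖ ≤ 6 * π * (|x 0| + |x 1|) := by
    have e : (-((π : ℂ) * (D j zz x * zz x + zz x * D j zz x)) -
        2 * (π : ℂ) * ((if (1 : Fin 3) = j then 1 else 0) * (x 1 : ℂ) +
        (x 1 : ℂ) * (if (1 : Fin 3) = j then 1 else 0))) =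
        -((2 * (π : ℂ)) * (D j zz x * zz x)) -
        (4 * (π : ℂ)) * ((if (1 : Fin 3) = j then 1 else 0) * (x 1 : ℂ)) := by ring
    rw [e]
    refine (norm_sub_le _ _).trans ?_
    rw [norm_neg, norm_mul, norm_mul, norm_mul, norm_mul, norm_mul, norm_mul,
      Complex.norm_real, Complex.norm_real, Complex.norm_ofNat, Complex.norm_ofNat,
      Real.norm_of_nonneg hpi.le, Real.norm_eq_abs]
    have e1 : ‖D j zz x‖ * ‖zz x‖ ≤ 1 * (|x 0| + |x 1|) :=
      mul_le_mul hDz hz (norm_nonneg _) (by norm_num)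
    have e2 : ‖(if (1 : Fin 3) = j then (1 : ℂ) else 0)‖ * |x 1| ≤ 1 * |x 1| :=
      mul_le_mul_of_nonneg_right hi h1'
    nlinarith
  rw [h1, norm_mul, norm_Gq, mul_comm]
  exact mul_le_mul_of_nonneg_right h2 (Real.exp_pos _).le

private theorem exp_bd' (x : E 3) : (1 + |x 0| + |x 1|) *
    Real.exp (-(π * (x 0 ^ 2 + x 1 ^ 2))) ≤ 2 * Real.exp (-(x 0 ^ 2 + x 1 ^ 2)) := by
  set r := x 0 ^ 2 + x 1 ^ 2 with hrdef
  have hr : 0 ≤ r := by
    rw [hrdef]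
    positivity
  have h1 : 1 + |x 0| + |x 1| ≤ 2 + r / 2 := by
    rw [hrdef]
    have a := sq_nonneg (|x 0| - 1)
    have b := sq_nonneg (|x 1| - 1)
    have c := sq_abs (x 0)
    have d := sq_abs (x 1)
    nlinarith
  have h2 : 1 + r / 2 ≤ Real.exp (r / 2) := by
    have := Real.add_one_le_exp (r / 2)
    linarith
  have h3 : Real.exp (-(π * r)) ≤ Real.exp (-r) * Real.exp (-(r / 2)) := by
    rw [← Real.exp_add]
    refine Real.exp_le_exp.2 ?_
    have := Real.pi_gt_three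
    nlinarith
  have h4 : Real.exp (r / 2) * Real.exp (-(r / 2)) = 1 := by
    rw [← Real.exp_add]
    simp
  have hp := Real.exp_pos (-r)
  have hq := Real.exp_pos (-(r / 2))
  calc (1 + |x 0| + |x 1|) * Real.exp (-(π * r))
      ≤ (2 * Real.exp (r / 2)) * (Real.exp (-r) * Real.exp (-(r / 2))) := by
        refine mul_le_mul (by linarith) h3 (Real.exp_pos _).le (by positivity)
    _ = 2 * Real.exp (-r) * (Real.exp (r / 2) * Real.exp (-(r / 2))) := by ring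
    _ = _ := by rw [h4, mul_one]

private theorem sol_eq' (x : E 3) : fG (zz x) * S x = Gq x * Tq x := by
  unfold fG Gq Tq
  rw [← mul_assoc, ← Complex.exp_add]
  congr 2
  ring

theorem gauss_bd : ∃ Mb : ℝ, ∀ x : E 3,
    ‖fG (zz x) * S x‖ ≤ Mb * Real.exp (-(x 0 ^ 2 + x 1 ^ 2)) ∧
      ∀ j, ‖D j (fun x => fG (zz x) * S x) x‖ ≤ Mb * Real.exp (-(x 0 ^ 2 + x 1 ^ 2)) := by
  obtain ⟨B, hB0, hB⟩ := norm_Tq
  obtain ⟨C, hC0, hC⟩ := norm_DTq
  have hpi := Real.pi_pos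
  refine ⟨2 * ((6 * π + 1) * B + C), fun x => ?_⟩
  have hb := exp_bd' x
  have hg := norm_Gq x
  have hDg := fun j => norm_DGq j x
  set G := Real.exp (-(π * (x 0 ^ 2 + x 1 ^ 2))) with hG
  have hG0 : 0 < G := Real.exp_pos _
  have a0 := abs_nonneg (x 0)
  have a1 := abs_nonneg (x 1)
  set q := 1 + |x 0| + |x 1| with hq
  have hq1 : 1 ≤ q := by linarith
  have hfin : ∀ {a c : ℝ}, 0 ≤ c → a ≤ c * (q * G) →
      a ≤ 2 * c * Real.exp (-(x 0 ^ 2 + x 1 ^ 2)) := by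
    intro a c hc ha
    calc a ≤ c * (q * G) := ha
      _ ≤ c * (2 * Real.exp (-(x 0 ^ 2 + x 1 ^ 2))) := mul_le_mul_of_nonneg_left hb hc
      _ = _ := by ring
  have hc0 : 0 ≤ (6 * π + 1) * B + C := by positivity
  refine ⟨hfin hc0 ?_, fun j => hfin hc0 ?_⟩
  · rw [sol_eq', norm_mul, hg]
    calc G * ‖Tq x‖ ≤ G * B := mul_le_mul_of_nonneg_left (hB x) hG0.le
      _ = B * (1 * G) := by ring
      _ ≤ ((6 * π + 1) * B + C) * (q * G) := by
          refine mul_le_mul ?_ (mul_le_mul_of_nonneg_right hq1 hG0.le) (by positivity) hc0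
          have : 0 ≤ 6 * π * B := by positivity
          linarith
  · have hfun : (fun x => fG (zz x) * S x) = fun x => Gq x * Tq x := funext sol_eq'
    rw [hfun, MP_c8757e_WG.D_mulC Gq_smooth Tq_smooth]
    refine (norm_add_le _ _).trans ?_
    rw [norm_mul, norm_mul, hg]
    have e1 : ‖D j Gq x‖ * ‖Tq x‖ ≤ (6 * π * (|x 0| + |x 1|) * G) * B :=
      mul_le_mul (hDg j) (hB x) (norm_nonneg _) (by positivity)
    have e2 : G * ‖D j Tq x‖ ≤ G * (C * (1 + |x 1|)) :=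
      mul_le_mul_of_nonneg_left (hC j x) hG0.le
    have e3 : 6 * π * (|x 0| + |x 1|) * G * B ≤ (6 * π * B) * (q * G) := by
      have e4 : |x 0| + |x 1| ≤ q := by linarith
      have e5 : 0 ≤ 6 * π * B * G := by positivity
      nlinarith
    have e6 : G * (C * (1 + |x 1|)) ≤ C * (q * G) := by
      have e7 : 1 + |x 1| ≤ q := by linarith
      have e8 : 0 ≤ C * G := by positivity
      nlinarith
    have e9 : 0 ≤ B * (q * G) := by positivity
    calc _ ≤ (6 * π * B) * (q * G) + C * (q * G) := by linarith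
      _ ≤ ((6 * π + 1) * B + C) * (q * G) := by nlinarith

end Pool.Agent.Lib.MP_c8757e_W3
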