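import Pool.Agent.Lib.MP_c8757e_W3.SecSm

/-!
# W3: the modes under translations
-/

open MeasureTheory Filter Topology Real

noncomputable section

namespace Pool.Agent.Lib.MP_c8757e_W3

open Pool.Agent.Lib.MP_c8757e_mp
open Pool.Agent.Lib.MP_c8757e_WG (Sm D Inv)

private theorem SecLat_mu (δ s : ℝ) (n : ℤ) : mu δ (s + n) = mu δ s + n := by
  unfold mu
  have h : s + (n : ℝ) - δ = s - δ + (n : ℝ) := by ring
  rw [h, round_add_intCast]
  push_cast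
  ring

theorem M_lat (l : ℕ) {δ : ℝ} {p : ℤ} (hδ : 2 * δ = p) (a : ℝ) (x : E 3) (n : Fin 3 → ℤ) :
    M l δ a (x + latE n) = hh n x * M l δ a x := by
  have hδC : (2 : ℂ) * (δ : ℂ) = (p : ℂ) := by exact_mod_cast hδ
  have hI : Complex.I * Complex.I = -1 := Complex.I_mul_I
  have h1 : chi ((x + latE n) 1 - δ) = chi (x 1 - δ) := by
    have h2 : (x + latE n) 1 - δ = x 1 - δ + (n 1 : ℝ) := by
      rw [lat_apply]
      ring
    rw [h2, chi_add]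
  have h3 : w ((x + latE n) 1) = w (x 1) := by rw [lat_apply, w_add]
  have h4 : mu δ ((x + latE n) 1) = mu δ (x 1) + (n 1 : ℝ) := by rw [lat_apply, SecLat_mu]
  have h5 : (x + latE n) 2 = x 2 + (n 2 : ℝ) := lat_apply x n 2
  have e : (a : ℂ) + (l : ℂ) * ((w ((x + latE n) 1) : ℂ) +
        2 * π * Complex.I * (((x + latE n) 2 : ℝ) : ℂ)) +
      4 * π * Complex.I * (mu δ ((x + latE n) 1) : ℂ) * zz (x + latE n) +
      2 * π * (mu δ ((x + latE n) 1) : ℂ) ^ 2 =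
      ((4 * π * Complex.I * (n 1 : ℂ) * zz x - 2 * π * (n 1 : ℂ) ^ 2) +
      ((a : ℂ) + (l : ℂ) * ((w (x 1) : ℂ) + 2 * π * Complex.I * (x 2 : ℂ)) +
        4 * π * Complex.I * (mu δ (x 1) : ℂ) * zz x + 2 * π * (mu δ (x 1) : ℂ) ^ 2)) +
      (((l : ℤ) * n 2 + (2 * round (x 1 - δ) + p + 2 * n 1) * n 0 : ℤ) : ℂ) *
        (2 * π * Complex.I) := by
    rw [h3, h4, h5, zz_lat]
    unfold mu
    push_cast
    linear_combination (2 * π * Complex.I * (n 0 : ℂ)) * hδC +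
      (4 * π * (((round (x 1 - δ) : ℤ) : ℂ) + (δ : ℂ) + (n 1 : ℂ)) * (n 1 : ℂ)) * hI
  unfold M hh
  rw [h1, e, Complex.exp_add, Complex.exp_add, Complex.exp_int_mul_two_pi_mul_I]
  ring

theorem M_fib (l : ℕ) (δ a : ℝ) (x : E 3) (s : ℝ) :
    M l δ a (x + s • (EuclideanSpace.single 2 (1 : ℝ) : E 3)) =
      Complex.exp (2 * π * Complex.I * (l : ℂ) * s) * M l δ a x := by
  have h0 : (x + s • (EuclideanSpace.single 2 (1 : ℝ) : E 3)) 0 = x 0 := by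
    simp
  have h1 : (x + s • (EuclideanSpace.single 2 (1 : ℝ) : E 3)) 1 = x 1 := by
    simp
  have h2 : (x + s • (EuclideanSpace.single 2 (1 : ℝ) : E 3)) 2 = x 2 + s := by
    simp
  have hz : zz (x + s • (EuclideanSpace.single 2 (1 : ℝ) : E 3)) = zz x := by
    unfold zz
    rw [h0, h1]
  unfold M
  rw [h1, h2, hz]
  have e : (a : ℂ) + (l : ℂ) * ((w (x 1) : ℂ) + 2 * π * Complex.I * ((x 2 + s : ℝ) : ℂ)) +
      4 * π * Complex.I * (mu δ (x 1) : ℂ) * zz x + 2 * π * (mu δ (x 1) : ℂ) ^ 2 =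
      2 * π * Complex.I * (l : ℂ) * s +
      ((a : ℂ) + (l : ℂ) * ((w (x 1) : ℂ) + 2 * π * Complex.I * (x 2 : ℂ)) +
        4 * π * Complex.I * (mu δ (x 1) : ℂ) * zz x + 2 * π * (mu δ (x 1) : ℂ) ^ 2) := by
    push_cast
    ring
  rw [e, Complex.exp_add]
  ring

theorem M_y (l : ℕ) (δ a : ℝ) (x : E 3) :
    D 2 (M l δ a) x = 2 * π * Complex.I * (l : ℂ) * M l δ a x :=
  Pool.Agent.Lib.MP_c8757e_WG.fderiv_line (M_smooth l δ a) (fun x s => M_fib l δ a x s) x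

private theorem SecLat_w1 : Sm (fun x : E 3 => (w1 (x 1) : ℂ)) :=
  Sm_ofReal (Sm_comp w1_smooth (Sm_coord 1))

theorem rho_smooth (l : ℕ) (δ a : ℝ) : Sm (rho l δ a) := by
  have hM := M_smooth l δ a
  have h1 : Sm (fun x : E 3 => Complex.I * (l : ℂ) * (w1 (x 1) : ℂ)) :=
    Sm_mulC (Sm_const _) SecLat_w1
  exact ((hM.D 0).add (Sm_mulC (Sm_const Complex.I) (hM.D 1))).sub (Sm_mulC h1 hM)

private theorem SecLat_dhh (n : Fin 3 → ℤ) (x : E 3) :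
    D 0 (hh n) x + Complex.I * D 1 (hh n) x = 0 := by
  have hs : Sm (fun x : E 3 => 4 * π * Complex.I * (n 1 : ℂ) * zz x) :=
    Sm_mulC (Sm_const _) zz_smooth
  have hs2 : Sm (fun _ : E 3 => (2 * π * (n 1 : ℂ) ^ 2 : ℂ)) := Sm_const _
  have hs3 : Sm (fun x : E 3 => 4 * π * Complex.I * (n 1 : ℂ) * zz x - 2 * π * (n 1 : ℂ) ^ 2) :=
    hs.sub hs2
  have h1 : ∀ j : Fin 3, D j (hh n) x = hh n x * (4 * π * Complex.I * (n 1 : ℂ) * D j zz x) := by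
    intro j
    have e : D j (hh n) x = D j (fun x : E 3 => Complex.exp
        (4 * π * Complex.I * (n 1 : ℂ) * zz x - 2 * π * (n 1 : ℂ) ^ 2)) x := rfl
    rw [e, D_cexp hs3, Pool.Agent.Lib.MP_c8757e_WG.D_sub hs hs2, D_const, sub_zero,
      Pool.Agent.Lib.MP_c8757e_WG.D_cmulC _ zz_smooth]
    rfl
  rw [h1, h1, D_zz0, D_zz1]
  linear_combination (4 * π * Complex.I * (n 1 : ℂ) * hh n x) * Complex.I_mul_I

theorem rho_lat (l : ℕ) {δ : ℝ} {p : ℤ} (hδ : 2 * δ = p) (a : ℝ) (x : E 3) (n : Fin 3 → ℤ) :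
    rho l δ a (x + latE n) = hh n x * rho l δ a x := by
  have hM := M_smooth l δ a
  have h0 := Pool.Agent.Lib.MP_c8757e_WG.D_shift hM (hh_smooth n)
    (fun x => M_lat l hδ a x n) 0 x
  have h1 := Pool.Agent.Lib.MP_c8757e_WG.D_shift hM (hh_smooth n)
    (fun x => M_lat l hδ a x n) 1 x
  have hw : w1 ((x + latE n) 1) = w1 (x 1) := by rw [lat_apply, w1_add]
  unfold rho
  rw [h0, h1, hw, M_lat l hδ a x n]
  linear_combination (M l δ a x) * SecLat_dhh n x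

private theorem SecLat_comm (l : ℕ) (δ a : ℝ) (j : Fin 3) (x : E 3) :
    D 2 (D j (M l δ a)) x = 2 * π * Complex.I * (l : ℂ) * D j (M l δ a) x := by
  rw [Pool.Agent.Lib.MP_c8757e_WG.D_comm (M_smooth l δ a)]
  have e : D 2 (M l δ a) = fun x => 2 * π * Complex.I * (l : ℂ) * M l δ a x :=
    funext fun x => M_y l δ a x
  rw [e, Pool.Agent.Lib.MP_c8757e_WG.D_cmulC _ (M_smooth l δ a)]

theorem rho_y (l : ℕ) (δ a : ℝ) (x : E 3) :
    D 2 (rho l δ a) x = 2 * π * Complex.I * (l : ℂ) * rho l δ a x := by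
  have hM := M_smooth l δ a
  have hw := SecLat_w1
  have h1 : Sm (fun x : E 3 => Complex.I * (l : ℂ) * (w1 (x 1) : ℂ)) := Sm_mulC (Sm_const _) hw
  have h2 : Sm (fun x : E 3 => Complex.I * D 1 (M l δ a) x) :=
    Sm_mulC (Sm_const Complex.I) (hM.D 1)
  have h3 : Sm (fun x : E 3 => D 0 (M l δ a) x + Complex.I * D 1 (M l δ a) x) := (hM.D 0).add h2
  have h4 : Sm (fun x : E 3 => Complex.I * (l : ℂ) * (w1 (x 1) : ℂ) * M l δ a x) := Sm_mulC h1 hM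
  have hw1 : D 2 (fun x : E 3 => (w1 (x 1) : ℂ)) x = 0 := by
    rw [D_ofReal (Sm_comp w1_smooth (Sm_coord 1)),
      D_fun1 (w1_smooth.differentiable (by simp))]
    simp
  have e : D 2 (rho l δ a) x = D 2 (fun x : E 3 => (D 0 (M l δ a) x +
      Complex.I * D 1 (M l δ a) x) - Complex.I * (l : ℂ) * (w1 (x 1) : ℂ) * M l δ a x) x := rfl
  rw [e, Pool.Agent.Lib.MP_c8757e_WG.D_sub h3 h4, Pool.Agent.Lib.MP_c8757e_WG.D_add (hM.D 0) h2,
    Pool.Agent.Lib.MP_c8757e_WG.D_cmulC _ (hM.D 1), SecLat_comm, SecLat_comm,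
    Pool.Agent.Lib.MP_c8757e_WG.D_mulC h1 hM, Pool.Agent.Lib.MP_c8757e_WG.D_cmulC _ hw, hw1, M_y]
  unfold rho
  ring

theorem S1_smooth : Sm S1 := M_smooth 1 0 0

theorem S2_smooth : Sm S2 := M_smooth 2 (1 / 2) 4

theorem r1_smooth : Sm r1 := rho_smooth 1 0 0

theorem r2_smooth : Sm r2 := rho_smooth 2 (1 / 2) 4

theorem S_smooth : Sm S := S1_smooth.add S2_smooth

theorem S1_lat (x : E 3) (n : Fin 3 → ℤ) : S1 (x + latE n) = hh n x * S1 x :=
  M_lat 1 (p := 0) (by simp) 0 x n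

theorem S2_lat (x : E 3) (n : Fin 3 → ℤ) : S2 (x + latE n) = hh n x * S2 x :=
  M_lat 2 (p := 1) (by norm_num) 4 x n

theorem r1_lat (x : E 3) (n : Fin 3 → ℤ) : r1 (x + latE n) = hh n x * r1 x :=
  rho_lat 1 (p := 0) (by simp) 0 x n

theorem r2_lat (x : E 3) (n : Fin 3 → ℤ) : r2 (x + latE n) = hh n x * r2 x :=
  rho_lat 2 (p := 1) (by norm_num) 4 x n

theorem S_lat (x : E 3) (n : Fin 3 → ℤ) : S (x + latE n) = hh n x * S x := by
  unfold S
  rw [S1_lat, S2_lat]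
  ring

theorem S1_y (x : E 3) : D 2 S1 x = 2 * π * Complex.I * S1 x := by
  have h := M_y 1 0 0 x
  rw [Nat.cast_one, mul_one] at h
  exact h

theorem S2_y (x : E 3) : D 2 S2 x = 4 * π * Complex.I * S2 x := by
  have h := M_y 2 (1 / 2) 4 x
  have e : 2 * (π : ℂ) * Complex.I * ((2 : ℕ) : ℂ) = 4 * π * Complex.I := by
    push_cast
    ring
  rw [e] at h
  exact h

theorem r1_y (x : E 3) : D 2 r1 x = 2 * π * Complex.I * r1 x := by
  have h := rho_y 1 0 0 x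
  rw [Nat.cast_one, mul_one] at h
  exact h

theorem r2_y (x : E 3) : D 2 r2 x = 4 * π * Complex.I * r2 x := by
  have h := rho_y 2 (1 / 2) 4 x
  have e : 2 * (π : ℂ) * Complex.I * ((2 : ℕ) : ℂ) = 4 * π * Complex.I := by
    push_cast
    ring
  rw [e] at h
  exact h

private theorem SecLat_S (j : Fin 3) (x : E 3) : D j S x = D j S1 x + D j S2 x :=
  Pool.Agent.Lib.MP_c8757e_WG.D_add S1_smooth S2_smooth j x

theorem S_y (x : E 3) : D 2 S x = 2 * π * Complex.I * (S1 x + 2 * S2 x) := by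
  rw [SecLat_S, S1_y, S2_y]
  ring

theorem S_yy (x : E 3) : D 2 (D 2 S) x = -(4 * π ^ 2 * (S1 x + 4 * S2 x)) := by
  have e : D 2 S = fun x => 2 * π * Complex.I * (S1 x + 2 * S2 x) := funext S_y
  have h2 : Sm (fun x : E 3 => 2 * S2 x) := Sm_mulC (Sm_const _) S2_smooth
  have h3 : Sm (fun x : E 3 => S1 x + 2 * S2 x) := S1_smooth.add h2
  rw [e, Pool.Agent.Lib.MP_c8757e_WG.D_cmulC _ h3,
    Pool.Agent.Lib.MP_c8757e_WG.D_add S1_smooth h2,
    Pool.Agent.Lib.MP_c8757e_WG.D_cmulC _ S2_smooth, S1_y, S2_y]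
  linear_combination (4 * π ^ 2 * (S1 x + 4 * S2 x)) * Complex.I_mul_I

theorem S_dbar (x : E 3) : D 0 S x + Complex.I * D 1 S x =
    Complex.I * (w1 (x 1) : ℂ) * (S1 x + 2 * S2 x) + (r1 x + r2 x) := by
  have e1 : r1 x = D 0 S1 x + Complex.I * D 1 S1 x -
      Complex.I * ((1 : ℕ) : ℂ) * (w1 (x 1) : ℂ) * S1 x := rfl
  have e2 : r2 x = D 0 S2 x + Complex.I * D 1 S2 x -
      Complex.I * ((2 : ℕ) : ℂ) * (w1 (x 1) : ℂ) * S2 x := rfl
  rw [SecLat_S, SecLat_S, e1, e2]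
  push_cast
  ring

end Pool.Agent.Lib.MP_c8757e_W3
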