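import Pool.Agent.Lib.MP_c8757e_W3.Size
import Pool.Agent.Lib.MP_c8757e_W3.SecLat

/-!
# W3: the section does not vanish outside the bad strips
-/

open MeasureTheory Filter Topology Real

noncomputable section

namespace Pool.Agent.Lib.MP_c8757e_W3

open Pool.Agent.Lib.MP_c8757e_mp
open Pool.Agent.Lib.MP_c8757e_WG (Sm D Inv)

theorem S_ne {x : E 3} (h : ¬ Bad x) : S x ≠ 0 := by
  intro h0
  have h1 : S2 x = -S1 x := by
    unfold S at h0
    linear_combination h0
  have h2 : ‖S2 x‖ = ‖S1 x‖ := by rw [h1, norm_neg]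
  rcases size h with h3 | h3
  · linarith
  · have := norm_nonneg (S1 x)
    linarith

theorem Th_pos {x : E 3} (h : ¬ Bad x) : 0 < Th x := by
  have e1 : n1 x = ‖S1 x‖ ^ 2 := Complex.normSq_eq_norm_sq _
  have e2 : n2 x = ‖S2 x‖ ^ 2 := Complex.normSq_eq_norm_sq _
  have e3 : -(‖S1 x‖ * ‖S2 x‖) ≤ (starRingEnd ℂ (S1 x) * S2 x).re := by
    have h4 := Complex.abs_re_le_norm (starRingEnd ℂ (S1 x) * S2 x)
    rw [norm_mul, RCLike.norm_conj] at h4
    linarith [neg_abs_le (starRingEnd ℂ (S1 x) * S2 x).re]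
  have p1 := norm_nonneg (S1 x)
  have p2 := norm_nonneg (S2 x)
  have key : 0 < (‖S1 x‖ - ‖S2 x‖) * (‖S1 x‖ - 2 * ‖S2 x‖) := by
    rcases size h with h3 | h3
    · exact mul_pos_of_neg_of_neg (by linarith) (by linarith)
    · exact mul_pos (by linarith) (by linarith)
  unfold Th
  rw [e1, e2]
  nlinarith

theorem exists_S_ne (a b : ℝ) : ∃ x : E 3, x 0 = a ∧ x 1 = b ∧ S x ≠ 0 := by
  let p : E 3 := WithLp.toLp 2 ![a, b, 0]
  have p1 : p 1 = b := rfl
  by_cases h : S p = 0
  · refine ⟨p + (1 / 2 : ℝ) • (EuclideanSpace.single 2 (1 : ℝ) : E 3), ?_, ?_, ?_⟩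
    · simp [p]
    · simp [p]
    · intro h2
      have e1 : S1 p + S2 p = 0 := h
      have e2 : S1 (p + (1 / 2 : ℝ) • (EuclideanSpace.single 2 (1 : ℝ) : E 3)) +
          S2 (p + (1 / 2 : ℝ) • (EuclideanSpace.single 2 (1 : ℝ) : E 3)) = 0 := h2
      unfold S1 S2 at e2
      rw [M_fib, M_fib] at e2
      have x1 : Complex.exp (2 * π * Complex.I * ((1 : ℕ) : ℂ) * ((1 / 2 : ℝ) : ℂ)) = -1 := by
        have : (2 * π * Complex.I * ((1 : ℕ) : ℂ) * ((1 / 2 : ℝ) : ℂ)) = π * Complex.I := by
          push_cast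
          ring
        rw [this, Complex.exp_pi_mul_I]
      have x2 : Complex.exp (2 * π * Complex.I * ((2 : ℕ) : ℂ) * ((1 / 2 : ℝ) : ℂ)) = 1 := by
        have : (2 * π * Complex.I * ((2 : ℕ) : ℂ) * ((1 / 2 : ℝ) : ℂ)) = 2 * π * Complex.I := by
          push_cast
          ring
        rw [this, Complex.exp_two_pi_mul_I]
      rw [x1, x2] at e2
      have e3 : -1 * S1 p + 1 * S2 p = 0 := e2
      have e4 : S1 p = 0 := by linear_combination (e1 - e3) / 2
      have e5 : S2 p = 0 := by linear_combination (e1 + e3) / 2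
      by_cases hb : -(1 / 4) ≤ kap b
      · have hc : chi (p 1 - 0) = 1 := by
          rw [p1, sub_zero]
          exact Real.smoothTransition.one_of_one_le (by linarith)
        have : S1 p ≠ 0 := by
          unfold S1 M
          rw [hc]
          simp [Complex.exp_ne_zero]
        exact this e4
      · have hc : chi (p 1 - 1 / 2) = 1 := by
          rw [p1]
          refine Real.smoothTransition.one_of_one_le ?_
          rw [kap_half]
          push Not at hb
          linarith
        have : S2 p ≠ 0 := by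
          unfold S2 M
          rw [hc]
          simp [Complex.exp_ne_zero]
        exact this e5
  · exact ⟨p, rfl, rfl, h⟩

end Pool.Agent.Lib.MP_c8757e_W3
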