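import Pool.Agent.Lib.MP_c8757e_W3.EtaSm
import Pool.Agent.Lib.MP_c8757e_W3.Div

/-!
# W3: the curvature and the densities
-/

open MeasureTheory Filter Topology Real

noncomputable section

namespace Pool.Agent.Lib.MP_c8757e_W3

open Pool.Agent.Lib.MP_c8757e_mp
open Pool.Agent.Lib.MP_c8757e_WG (Sm D Inv)

theorem om_nil {x : E 3} (h : |kap (x 1)| < 1 / 4) : om B0 B1 x = w2 (x 1) / (2 * π) := by
  have h1 : ∀ j : Fin 3, D j B1 x = 0 := by
    intro j
    have e : ∀ᶠ y in 𝓝 x, B1 y = (fun _ : E 3 => (0 : ℝ)) y := by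
      filter_upwards [nil_near h] with y hy
      exact B1_nil hy
    rw [D_congr e j, D_const]
  have h0 : D 1 B0 x = -(w2 (x 1) / (2 * π)) := by
    have e : ∀ᶠ y in 𝓝 x, B0 y = (fun y : E 3 => (fun s : ℝ => -(w1 s / (2 * π))) (y 1)) y := by
      filter_upwards [nil_near h] with y hy
      exact B0_nil hy
    have hd : Differentiable ℝ w1 := w1_smooth.differentiable (by simp)
    have hd2 : Differentiable ℝ (fun s : ℝ => -(w1 s / (2 * π))) := (hd.div_const _).neg
    rw [D_congr e 1, D_fun1 hd2 1 1 x, if_pos rfl]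
    have h3 : HasDerivAt (fun s : ℝ => -(w1 s / (2 * π))) (-(w2 (x 1) / (2 * π))) (x 1) := by
      have h4 : HasDerivAt w1 (w2 (x 1)) (x 1) := by
        rw [← deriv_w1]
        exact (hd (x 1)).hasDerivAt
      exact (h4.div_const _).fun_neg
    exact h3.deriv
  unfold om
  rw [h1, h1, h0, B1_nil h]
  ring

theorem omB_smooth : Sm (om B0 B1) := om_smooth B0_smooth B1_smooth

theorem omB_lat (n : Fin 3 → ℤ) : Inv (latE n) (om B0 B1) := om_inv (B0_lat n) (B1_lat n)

theorem n1_smooth : Sm n1 := Sm_normSq S1_smooth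

theorem n2_smooth : Sm n2 := Sm_normSq S2_smooth

theorem Th_smooth : Sm Th :=
  (n1_smooth.add (Sm_mul (Sm_const 2) n2_smooth)).add
    (Sm_mul (Sm_const 3) (Sm_re (Sm_mulC (Sm_conj S1_smooth) S2_smooth)))

theorem n1_lat (x : E 3) (n : Fin 3 → ℤ) :
    n1 (x + latE n) = Complex.normSq (hh n x) * n1 x := by
  unfold n1
  rw [S1_lat, Complex.normSq_mul]

theorem n2_lat (x : E 3) (n : Fin 3 → ℤ) :
    n2 (x + latE n) = Complex.normSq (hh n x) * n2 x := by
  unfold n2
  rw [S2_lat, Complex.normSq_mul]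

theorem Th_lat (x : E 3) (n : Fin 3 → ℤ) :
    Th (x + latE n) = Complex.normSq (hh n x) * Th x := by
  have e : starRingEnd ℂ (hh n x * S1 x) * (hh n x * S2 x) =
      (Complex.normSq (hh n x) : ℂ) * (starRingEnd ℂ (S1 x) * S2 x) := by
    rw [Complex.normSq_eq_conj_mul_self, map_mul]
    ring
  unfold Th
  rw [n1_lat, n2_lat, S1_lat, S2_lat, e, Complex.re_ofReal_mul]
  ring

private theorem Om_re (c : ℝ) (z : ℂ) :
    (starRingEnd ℂ z * ((c : ℂ) * Complex.I * z)).re = 0 := by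
  have e : starRingEnd ℂ z * ((c : ℂ) * Complex.I * z) =
      ((c * Complex.normSq z : ℝ) : ℂ) * Complex.I := by
    push_cast
    rw [Complex.normSq_eq_conj_mul_self]
    ring
  rw [e, Complex.re_ofReal_mul, Complex.I_re, mul_zero]

theorem n1_y (x : E 3) : D 2 n1 x = 0 := by
  have h1 : D 2 n1 x = 2 * (starRingEnd ℂ (S1 x) * D 2 S1 x).re := D_normSq S1_smooth 2 x
  have h2 : (2 * π * Complex.I * S1 x : ℂ) = ((2 * π : ℝ) : ℂ) * Complex.I * S1 x := by
    push_cast
    ring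
  rw [h1, S1_y, h2, Om_re, mul_zero]

theorem n2_y (x : E 3) : D 2 n2 x = 0 := by
  have h1 : D 2 n2 x = 2 * (starRingEnd ℂ (S2 x) * D 2 S2 x).re := D_normSq S2_smooth 2 x
  have h2 : (4 * π * Complex.I * S2 x : ℂ) = ((4 * π : ℝ) : ℂ) * Complex.I * S2 x := by
    push_cast
    ring
  rw [h1, S2_y, h2, Om_re, mul_zero]

theorem normSq_S (x : E 3) :
    Complex.normSq (S x) = n1 x + n2 x + 2 * (starRingEnd ℂ (S1 x) * S2 x).re := by
  unfold S n1 n2
  simp only [Complex.normSq_apply, Complex.add_re, Complex.add_im, Complex.mul_re,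
    Complex.conj_re, Complex.conj_im]
  ring

theorem im_S (x : E 3) : (starRingEnd ℂ (S x) * D 2 S x).im = 2 * π * Th x := by
  have e : starRingEnd ℂ (S x) * D 2 S x = ((2 * π : ℝ) : ℂ) *
      (Complex.I * (starRingEnd ℂ (S1 x + S2 x) * (S1 x + 2 * S2 x))) := by
    rw [S_y]
    unfold S
    push_cast
    ring
  rw [e, Complex.im_ofReal_mul]
  congr 1
  unfold Th n1 n2
  simp only [Complex.normSq_apply, Complex.add_re, Complex.add_im, Complex.mul_re,
    Complex.mul_im, Complex.conj_re, Complex.conj_im, Complex.I_re, Complex.I_im, map_add,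
    Complex.re_ofNat, Complex.im_ofNat]
  ring

end Pool.Agent.Lib.MP_c8757e_W3
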