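import Pool.Agent.Lib.MP_c8757e_W3.PotSm
import Pool.Agent.Lib.MP_c8757e_W3.Curr

/-!
# W3: the equation
-/

open MeasureTheory Filter Topology Real

noncomputable section

namespace Pool.Agent.Lib.MP_c8757e_W3

open Pool.Agent.Lib.MP_c8757e_mp
open Pool.Agent.Lib.MP_c8757e_WG (Sm D Inv)

private theorem PotPde_flux (K : ℝ) (x : E 3) :
    D 2 (fun y : E 3 => (K * kk (y 1) * ww (y 1) - w2 (y 1) / 6 * (n1 y - n2 y)) / (2 * π)) x
      = 0 := by
  have hk : ContDiff ℝ (⊤ : ℕ∞) (fun s => K / (2 * π) * (kk s * ww s)) :=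
    contDiff_const.mul (kk_smooth.mul ww_smooth)
  have hw : ContDiff ℝ (⊤ : ℕ∞) (fun s => w2 s * (1 / (12 * π))) := w2_smooth.mul contDiff_const
  have h1 : Sm (fun y : E 3 => K / (2 * π) * (kk (y 1) * ww (y 1))) :=
    Sm_comp (φ := fun s => K / (2 * π) * (kk s * ww s)) hk (Sm_coord 1)
  have h2 : Sm (fun y : E 3 => w2 (y 1) * (1 / (12 * π))) :=
    Sm_comp (φ := fun s => w2 s * (1 / (12 * π))) hw (Sm_coord 1)
  have h3 : Sm (fun y : E 3 => n1 y - n2 y) := n1_smooth.sub n2_smooth
  have he : (fun y : E 3 => (K * kk (y 1) * ww (y 1) - w2 (y 1) / 6 * (n1 y - n2 y)) / (2 * π)) =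
      fun y : E 3 => K / (2 * π) * (kk (y 1) * ww (y 1)) -
        (w2 (y 1) * (1 / (12 * π))) * (n1 y - n2 y) := by
    funext y
    have hp : (π : ℝ) ≠ 0 := Real.pi_ne_zero
    field_simp
    ring
  rw [he, Pool.Agent.Lib.MP_c8757e_WG.D_sub h1 (Sm_mul h2 h3), D_mul h2 h3,
    Pool.Agent.Lib.MP_c8757e_WG.D_sub n1_smooth n2_smooth, n1_y, n2_y]
  have e1 : D 2 (fun y : E 3 => K / (2 * π) * (kk (y 1) * ww (y 1))) x = 0 := by
    have := D_fun1 (φ := fun s => K / (2 * π) * (kk s * ww s)) (hk.differentiable (by simp))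
      (1 : Fin 3) (2 : Fin 3) x
    rw [if_neg (by decide)] at this
    exact this
  have e2 : D 2 (fun y : E 3 => w2 (y 1) * (1 / (12 * π))) x = 0 := by
    have := D_fun1 (φ := fun s => w2 s * (1 / (12 * π))) (hw.differentiable (by simp))
      (1 : Fin 3) (2 : Fin 3) x
    rw [if_neg (by decide)] at this
    exact this
  rw [e1, e2]
  ring

theorem VV_pde (K : ℝ) (x : E 3) : dvA B0 B1 (cc K) S x + (VV K x : ℂ) * S x = 0 := by
  by_cases hB : Bad x
  · have h := dvA_bad K hB
    have hV : VV K x = -(8 * π ^ 2 * cc K x) := by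
      unfold VV
      rw [h]
      simp
    rw [h, hV]
    push_cast
    ring
  · have hS : S x ≠ 0 := S_ne hB
    have hn : Complex.normSq (S x) ≠ 0 := fun h => hS (Complex.normSq_eq_zero.1 h)
    have hcS : starRingEnd ℂ (S x) ≠ 0 := by
      simpa using hS
    have hcur := current B0_smooth B1_smooth (cc_smooth K) S_smooth first_order x
    have hfl : (fun y => cc K y * (starRingEnd ℂ (S y) * D 2 S y).im -
        1 / 2 * om B0 B1 y * Complex.normSq (S y)) =
        fun y => (K * kk (y 1) * ww (y 1) - w2 (y 1) / 6 * (n1 y - n2 y)) / (2 * π) :=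
      funext (cc_flux K)
    rw [hfl, PotPde_flux] at hcur
    have hss : starRingEnd ℂ (S x) * S x = ((Complex.normSq (S x) : ℝ) : ℂ) := by
      rw [mul_comm, Complex.mul_conj]
    set A := dvA B0 B1 (cc K) S x with hA
    have hre : (starRingEnd ℂ (S x) * (A - 8 * π ^ 2 * (cc K x : ℂ) * S x)).re =
        (starRingEnd ℂ (S x) * A).re - 8 * π ^ 2 * cc K x * Complex.normSq (S x) := by
      have e : starRingEnd ℂ (S x) * (A - 8 * π ^ 2 * (cc K x : ℂ) * S x) =
          starRingEnd ℂ (S x) * A -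
            ((8 * π ^ 2 * cc K x * Complex.normSq (S x) : ℝ) : ℂ) := by
        push_cast
        linear_combination (-(8 * (π : ℂ) ^ 2 * (cc K x : ℂ))) * hss
      rw [e, Complex.sub_re, Complex.ofReal_re]
    have hVn : VV K x * Complex.normSq (S x) = -(starRingEnd ℂ (S x) * A).re := by
      unfold VV
      rw [← hA, hre]
      field_simp
      ring
    have key : starRingEnd ℂ (S x) * (A + (VV K x : ℂ) * S x) = 0 := by
      have e : starRingEnd ℂ (S x) * (A + (VV K x : ℂ) * S x) =
          starRingEnd ℂ (S x) * A + ((VV K x * Complex.normSq (S x) : ℝ) : ℂ) := by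
        push_cast
        linear_combination (VV K x : ℂ) * hss
      rw [e, hVn]
      apply Complex.ext
      · simp
      · simp only [Complex.add_im, Complex.ofReal_im, add_zero, Complex.zero_im]
        exact hcur
    rcases mul_eq_zero.1 key with h | h
    · exact absurd h hcS
    · exact h

end Pool.Agent.Lib.MP_c8757e_W3
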