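import Pool.Agent.Lib.MP_c8757e_W3.Div

/-!
# W3: multiplication by entire functions
-/

open MeasureTheory Filter Topology Real

noncomputable section

namespace Pool.Agent.Lib.MP_c8757e_W3

open Pool.Agent.Lib.MP_c8757e_mp
open Pool.Agent.Lib.MP_c8757e_WG (Sm D Inv)

private theorem deriv_diff {f : ℂ → ℂ} (hf : Differentiable ℂ f) : Differentiable ℂ (deriv f) := by
  have h := (hf.differentiableOn (s := Set.univ)).deriv isOpen_univ
  exact fun z => (h z (Set.mem_univ z)).differentiableAt Filter.univ_mem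

private theorem P0_hol (b : E 3 → ℝ) {f : ℂ → ℂ} (hf : Differentiable ℂ f) (x : E 3) :
    P0 b (fun x => f (zz x)) x = deriv f (zz x) := by
  unfold P0
  rw [D_hol hf zz_smooth, D_hol hf zz_smooth, D_zz0, D_zz2]
  ring

private theorem P1_hol (b : E 3 → ℝ) {f : ℂ → ℂ} (hf : Differentiable ℂ f) (x : E 3) :
    P1 b (fun x => f (zz x)) x = Complex.I * deriv f (zz x) := by
  unfold P1
  rw [D_hol hf zz_smooth, D_hol hf zz_smooth, D_zz1, D_zz2]
  ring

private theorem D2_hol {f : ℂ → ℂ} (hf : Differentiable ℂ f) (x : E 3) :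
    D 2 (fun x => f (zz x)) x = 0 := by
  rw [D_hol hf zz_smooth, D_zz2]
  ring

/-- under the first order equation the operator commutes with the multiplication by `f (x₀ + i x₁)`,
`f` entire -/
theorem twist {b0 b1 c : E 3 → ℝ} {u : E 3 → ℂ} (hb0 : Sm b0) (hb1 : Sm b1) (hc : Sm c)
    (hu : Sm u) (h : First b0 b1 u) {f : ℂ → ℂ} (hf : Differentiable ℂ f) (x : E 3) :
    dvA b0 b1 c (fun x => f (zz x) * u x) x = f (zz x) * dvA b0 b1 c u x := by
  have hf1 := deriv_diff hf
  have sF : Sm (fun x => f (zz x)) := Sm_hol hf zz_smooth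
  have sG : Sm (fun x => deriv f (zz x)) := Sm_hol hf1 zz_smooth
  have sFu : Sm (fun x => f (zz x) * u x) := Sm_mulC sF hu
  have sGu : Sm (fun x => deriv f (zz x) * u x) := Sm_mulC sG hu
  have sp := Sm_P0 hb0 hu
  have sq := Sm_P1 hb1 hu
  have e0 : P0 b0 (fun x => f (zz x) * u x) =
      fun x => deriv f (zz x) * u x + f (zz x) * P0 b0 u x := by
    funext y
    rw [P0_mul sF hu, P0_hol b0 hf]
  have e1 : P1 b1 (fun x => f (zz x) * u x) =
      fun x => Complex.I * (deriv f (zz x) * u x) + f (zz x) * P1 b1 u x := by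
    funext y
    rw [P1_mul sF hu, P1_hol b1 hf]
    ring
  have e2 : D 2 (fun x => f (zz x) * u x) = fun x => f (zz x) * D 2 u x := by
    funext y
    rw [Pool.Agent.Lib.MP_c8757e_WG.D_mulC sF hu, D2_hol hf]
    ring
  have e00 : P0 b0 (P0 b0 (fun x => f (zz x) * u x)) x =
      deriv (deriv f) (zz x) * u x + 2 * (deriv f (zz x) * P0 b0 u x) +
        f (zz x) * P0 b0 (P0 b0 u) x := by
    rw [e0, P0_add sGu (Sm_mulC sF sp), P0_mul sG hu, P0_mul sF sp, P0_hol b0 hf1, P0_hol b0 hf]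
    ring
  have e11 : P1 b1 (P1 b1 (fun x => f (zz x) * u x)) x =
      -(deriv (deriv f) (zz x) * u x) + 2 * Complex.I * (deriv f (zz x) * P1 b1 u x) +
        f (zz x) * P1 b1 (P1 b1 u) x := by
    rw [e1, P1_add (Sm_mulC (Sm_const Complex.I) sGu) (Sm_mulC sF sq), P1_cmul _ sGu,
      P1_mul sG hu, P1_mul sF sq, P1_hol b1 hf1, P1_hol b1 hf]
    linear_combination (deriv (deriv f) (zz x) * u x) * Complex.I_sq
  have e22 : D 2 (D 2 (fun x => f (zz x) * u x)) x = f (zz x) * D 2 (D 2 u) x := by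
    rw [e2, Pool.Agent.Lib.MP_c8757e_WG.D_mulC sF (hu.D 2), D2_hol hf]
    ring
  rw [dvA_eq hb0 hb1 hc sFu, dvA_eq hb0 hb1 hc hu, e00, e11, e22, e0, e1, e2]
  have hx := h x
  unfold gam at hx
  linear_combination (2 * deriv f (zz x)) * hx
end Pool.Agent.Lib.MP_c8757e_W3
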