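import Pool.Agent.Lib.MP_c8757e_W3.CcSm
import Pool.Agent.Lib.MP_c8757e_W3.EtaEq
import Pool.Agent.Lib.MP_c8757e_W3.Form
import Pool.Agent.Lib.MP_c8757e_W3.Twist

/-!
# W3: the potential: smoothness and periodicity
-/

open MeasureTheory Filter Topology Real

noncomputable section

namespace Pool.Agent.Lib.MP_c8757e_W3

open Pool.Agent.Lib.MP_c8757e_mp
open Pool.Agent.Lib.MP_c8757e_WG (Sm D Inv)

private theorem PotSm_D_B0 {x : E 3} (h : Bad x) : D 2 B0 x = 0 := by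
  have h1 : ∀ᶠ y : E 3 in 𝓝 x, B0 y = (fun y : E 3 => (fun s => -(w1 s / (2 * π))) (y 1)) y := by
    filter_upwards [bad_near h] with y hy
    exact B0_nil (bad_nil hy)
  have hd : Differentiable ℝ fun s => -(w1 s / (2 * π)) :=
    ((w1_smooth.differentiable (by simp)).div_const _).neg
  rw [D_congr h1 2, D_fun1 hd 1 2 x, if_neg (by decide)]

private theorem PotSm_D_B1 {x : E 3} (h : Bad x) : D 2 B1 x = 0 := by
  have h1 : ∀ᶠ y : E 3 in 𝓝 x, B1 y = (fun _ : E 3 => (0 : ℝ)) y := by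
    filter_upwards [bad_near h] with y hy
    exact B1_nil (bad_nil hy)
  rw [D_congr h1 2, D_const]

private theorem PotSm_gam {x : E 3} (h : Bad x) : gam B0 B1 x = 0 := by
  unfold gam
  rw [PotSm_D_B0 h, PotSm_D_B1 h]
  simp

private theorem PotSm_D_gam {x : E 3} (h : Bad x) (j : Fin 3) : D j (gam B0 B1) x = 0 := by
  have h1 : ∀ᶠ y : E 3 in 𝓝 x, gam B0 B1 y = (fun _ : E 3 => (0 : ℂ)) y := by
    filter_upwards [bad_near h] with y hy
    exact PotSm_gam hy
  rw [D_congr h1 j, D_const]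

private theorem PotSm_D_cc (K : ℝ) {x : E 3} (h : Bad x) : D 2 (cc K) x = 0 := by
  have h1 : ∀ᶠ y : E 3 in 𝓝 x,
      cc K y = (fun y : E 3 => (fun s => w2 s / (12 * π ^ 2)) (y 1)) y := by
    filter_upwards [bad_near h] with y hy
    exact cc_bad K hy
  have hd : Differentiable ℝ fun s => w2 s / (12 * π ^ 2) :=
    (w2_smooth.differentiable (by simp)).div_const _
  rw [D_congr h1 2, D_fun1 hd 1 2 x, if_neg (by decide)]

theorem dvA_bad (K : ℝ) {x : E 3} (h : Bad x) :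
    dvA B0 B1 (cc K) S x = 8 * π ^ 2 * (cc K x : ℂ) * S x := by
  rw [dvA_first B0_smooth B1_smooth (cc_smooth K) S_smooth first_order x, PotSm_gam h,
    PotSm_D_cc K h, om_nil (bad_nil h), cc_bad K h, S_y, S_yy]
  have h0 : P0 B0 (gam B0 B1) x = 0 := by
    unfold P0
    rw [PotSm_D_gam h, PotSm_D_gam h]
    simp
  have h1 : P1 B1 (gam B0 B1) x = 0 := by
    unfold P1
    rw [PotSm_D_gam h, PotSm_D_gam h]
    simp
  have hπ : (π : ℂ) ≠ 0 := by exact_mod_cast Real.pi_ne_zero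
  have hI := Complex.I_sq
  rw [h0, h1]
  unfold S
  push_cast
  field_simp
  linear_combination (-(w2 (x 1) : ℂ) * (S1 x + 2 * S2 x) * 96) * hI

theorem VV_smooth (K : ℝ) : Sm (VV K) := by
  have hc : Sm fun x : E 3 => -(8 * π ^ 2 * cc K x) :=
    Sm_neg (Sm_mul (Sm_const (8 * π ^ 2)) (cc_smooth K))
  have hn : Sm fun x : E 3 =>
      (starRingEnd ℂ (S x) * (dvA B0 B1 (cc K) S x - 8 * π ^ 2 * (cc K x : ℂ) * S x)).re :=
    Sm_re (Sm_mulC (Sm_conj S_smooth) ((Sm_dvA B0_smooth B1_smooth (cc_smooth K) S_smooth).sub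
      (Sm_mulC (Sm_mulC (Sm_const (8 * (π : ℂ) ^ 2)) (Sm_ofReal (cc_smooth K))) S_smooth)))
  refine hc.sub (Sm_divR hn (Sm_normSq S_smooth) fun x => ?_)
  by_cases hx : Bad x
  · right
    filter_upwards [bad_near hx] with y hy
    rw [dvA_bad K hy, sub_self, mul_zero, Complex.zero_re]
  · left
    rw [ne_eq, Complex.normSq_eq_zero]
    exact S_ne hx

theorem dvA_lat (K : ℝ) (x : E 3) (n : Fin 3 → ℤ) :
    dvA B0 B1 (cc K) S (x + latE n) = hh n x * dvA B0 B1 (cc K) S x := by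
  rw [dvA_transl (B0_lat n) (B1_lat n) (cc_lat K n) S x]
  let f : ℂ → ℂ := fun z =>
    Complex.exp (4 * π * Complex.I * (n 1 : ℂ) * z - 2 * π * (n 1 : ℂ) ^ 2)
  have hf : Differentiable ℂ f := by fun_prop
  have h1 : (fun y => S (y + latE n)) = fun y => f (zz y) * S y :=
    funext fun y => S_lat y n
  rw [h1]
  exact twist B0_smooth B1_smooth (cc_smooth K) S_smooth first_order hf x

theorem VV_lat (K : ℝ) (n : Fin 3 → ℤ) : Inv (latE n) (VV K) := by
  intro x
  unfold VV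
  have hne : Complex.normSq (hh n x) ≠ 0 := by
    rw [ne_eq, Complex.normSq_eq_zero]
    exact Complex.exp_ne_zero _
  have hc : starRingEnd ℂ (hh n x) * hh n x = ((Complex.normSq (hh n x) : ℝ) : ℂ) := by
    rw [mul_comm, Complex.mul_conj]
  rw [cc_lat K n x, S_lat, dvA_lat]
  have h1 : starRingEnd ℂ (hh n x * S x) *
      (hh n x * dvA B0 B1 (cc K) S x - 8 * π ^ 2 * (cc K x : ℂ) * (hh n x * S x)) =
      ((Complex.normSq (hh n x) : ℝ) : ℂ) * (starRingEnd ℂ (S x) *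
        (dvA B0 B1 (cc K) S x - 8 * π ^ 2 * (cc K x : ℂ) * S x)) := by
    rw [← hc, map_mul]
    ring
  rw [h1, Complex.re_ofReal_mul, Complex.normSq_mul, mul_div_mul_left _ _ hne]

end Pool.Agent.Lib.MP_c8757e_W3
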