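import Pool.Agent.Lib.MP_c8757e_W3.Calc

/-!
# W3: smoothness of the modes
-/

open MeasureTheory Filter Topology Real

noncomputable section

namespace Pool.Agent.Lib.MP_c8757e_W3

open Pool.Agent.Lib.MP_c8757e_mp
open Pool.Agent.Lib.MP_c8757e_WG (Sm D Inv)

/-- away from the points where `kap = -1` the function `mu` is locally constant -/
theorem SecSm_mu (δ : ℝ) {x : E 3} (h : -1 < kap (x 1 - δ)) :
    ∀ᶠ y : E 3 in 𝓝 x, mu δ (y 1) = mu δ (x 1) := by
  have h2 : |(x 1 - δ) - round (x 1 - δ)| ≠ 1 / 2 := by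
    intro h3
    have h4 : 2 * π * (x 1 - δ) = 2 * π * ((x 1 - δ) - round (x 1 - δ)) +
        (round (x 1 - δ)) * (2 * π) := by ring
    have h5 : kap (x 1 - δ) = -1 := by
      unfold kap
      rw [h4, Real.cos_add_int_mul_two_pi, ← Real.cos_abs, abs_mul, h3,
        abs_of_pos (by positivity)]
      have : 2 * π * (1 / 2) = π := by ring
      rw [this, Real.cos_pi]
    linarith
  have h3 : |(x 1 - δ) - round (x 1 - δ)| < 1 / 2 := lt_of_le_of_ne (abs_sub_round _) h2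
  have hc : Continuous (fun y : E 3 => |(y 1 - δ) - (round (x 1 - δ) : ℝ)|) := by fun_prop
  filter_upwards [(hc.tendsto x).eventually (gt_mem_nhds h3)] with y hy
  unfold mu
  rw [Pool.Agent.Lib.MP_c8757e_WG.round_near rfl hy]

/-- the mode with `mu` replaced by a constant -/
def SecSm_N (l : ℕ) (δ a m : ℝ) (x : E 3) : ℂ :=
  (chi (x 1 - δ) : ℂ) * Complex.exp ((a : ℂ) +
    (l : ℂ) * ((w (x 1) : ℂ) + 2 * π * Complex.I * (x 2 : ℂ)) +
    4 * π * Complex.I * (m : ℂ) * zz x + 2 * π * (m : ℂ) ^ 2)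

theorem SecSm_N_smooth (l : ℕ) (δ a m : ℝ) : Sm (SecSm_N l δ a m) := by
  unfold SecSm_N
  have h1 : Sm (fun x : E 3 => x 1 - δ) := (Sm_coord 1).sub (Sm_const δ)
  have h2 : Sm (fun x : E 3 => (chi (x 1 - δ) : ℂ)) := Sm_ofReal (Sm_comp chi_smooth h1)
  have h3 : Sm (fun x : E 3 => (w (x 1) : ℂ)) := Sm_ofReal (Sm_comp w_smooth (Sm_coord 1))
  have h4 : Sm (fun x : E 3 => 2 * π * Complex.I * (x 2 : ℂ)) :=
    Sm_mulC (Sm_const _) (Sm_ofReal (Sm_coord 2))
  have h5 : Sm (fun x : E 3 => (l : ℂ) * ((w (x 1) : ℂ) + 2 * π * Complex.I * (x 2 : ℂ))) :=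
    Sm_mulC (Sm_const _) (h3.add h4)
  have h6 : Sm (fun x : E 3 => 4 * π * Complex.I * (m : ℂ) * zz x) :=
    Sm_mulC (Sm_const _) zz_smooth
  have h7 := (((Sm_const (d := 3) (a : ℂ)).add h5).add h6).add
    (Sm_const (d := 3) (2 * π * (m : ℂ) ^ 2))
  exact Sm_mulC h2 (Sm_cexp h7)

theorem M_smooth (l : ℕ) (δ a : ℝ) : Sm (M l δ a) := by
  refine Sm_of_at fun x => ?_
  by_cases h : kap (x 1 - δ) < -(1 / 2)
  · have hc : Continuous (fun y : E 3 => kap (y 1 - δ)) := by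
      have : Continuous kap := kap_smooth.continuous
      fun_prop
    have hev : ∀ᶠ y in 𝓝 x, M l δ a y = (fun _ => (0 : ℂ)) y := by
      filter_upwards [(hc.tendsto x).eventually (gt_mem_nhds h)] with y hy
      have : chi (y 1 - δ) = 0 := Real.smoothTransition.zero_of_nonpos (by linarith)
      simp only [M]
      rw [this]
      simp
    exact (contDiffAt_const (c := (0 : ℂ))).congr_of_eventuallyEq hev
  · have hev : ∀ᶠ y in 𝓝 x, M l δ a y = SecSm_N l δ a (mu δ (x 1)) y := by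
      filter_upwards [SecSm_mu δ (x := x) (by linarith)] with y hy
      simp only [M, SecSm_N]
      rw [hy]
    exact (Sm_at (SecSm_N_smooth l δ a (mu δ (x 1))) x).congr_of_eventuallyEq hev

end Pool.Agent.Lib.MP_c8757e_W3
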