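import Pool.Agent.Lib.MP_c8757e_W3.Calc

/-!
# W3: the size of the modes
-/

open MeasureTheory Filter Topology Real

noncomputable section

namespace Pool.Agent.Lib.MP_c8757e_W3

open Pool.Agent.Lib.MP_c8757e_mp
open Pool.Agent.Lib.MP_c8757e_WG (Sm D Inv)

theorem norm_M (l : ℕ) (δ a : ℝ) (x : E 3) :
    ‖M l δ a x‖ = chi (x 1 - δ) *
      Real.exp (a + l * w (x 1) + 2 * π * (x 1 - mu δ (x 1)) ^ 2 - 2 * π * (x 1) ^ 2) := by
  have h0 : 0 ≤ chi (x 1 - δ) := Real.smoothTransition.nonneg _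
  have h1 : ((a : ℂ) +
    (l : ℂ) * ((w (x 1) : ℂ) + 2 * π * Complex.I * (x 2 : ℂ)) +
    4 * π * Complex.I * (mu δ (x 1) : ℂ) * zz x + 2 * π * (mu δ (x 1) : ℂ) ^ 2) =
    ((a + l * w (x 1) + 2 * π * (x 1 - mu δ (x 1)) ^ 2 - 2 * π * (x 1) ^ 2 : ℝ) : ℂ) +
      ((l * (2 * π * x 2) + 4 * π * mu δ (x 1) * x 0 : ℝ) : ℂ) * Complex.I := by
    unfold zz
    push_cast
    linear_combination (4 * π * (mu δ (x 1) : ℂ) * (x 1 : ℂ)) * Complex.I_sq
  rw [M, norm_mul, Complex.norm_real, Real.norm_eq_abs, abs_of_nonneg h0, Complex.norm_exp, h1]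
  congr 2
  rw [Complex.add_re, Complex.ofReal_re, Complex.re_ofReal_mul, Complex.I_re, mul_zero, add_zero]

/-- the distance to the next integer -/
private theorem size_r (t : ℝ) : ∃ r : ℝ, 0 ≤ r ∧ r ≤ 1 / 2 ∧ (t - mu 0 t) ^ 2 = r ^ 2 ∧
    (t - mu (1 / 2) t) ^ 2 = (1 / 2 - r) ^ 2 ∧ kap t = Real.cos (2 * π * r) := by
  have e2 : mu (1 / 2) t = (⌊t⌋ : ℝ) + 1 / 2 := by
    rw [mu, round_eq, sub_add_cancel]
  have hf0 := Int.fract_nonneg t
  have hf1 := Int.fract_lt_one t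
  have hft : t = ⌊t⌋ + Int.fract t := (Int.floor_add_fract t).symm
  rcases lt_or_ge (Int.fract t) (1 / 2) with h | h
  · refine ⟨Int.fract t, hf0, h.le, ?_, ?_, ?_⟩
    · have e1 : mu 0 t = (⌊t⌋ : ℝ) := by
        rw [mu, sub_zero, add_zero, round_eq]
        congr 1
        rw [Int.floor_eq_iff]
        constructor <;> linarith
      rw [e1]
      have : t - (⌊t⌋ : ℝ) = Int.fract t := rfl
      rw [this]
    · rw [e2]
      have : t - ((⌊t⌋ : ℝ) + 1 / 2) = -(1 / 2 - Int.fract t) := by linarith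
      rw [this, neg_sq]
    · have : kap t = kap (Int.fract t) := by
        conv_lhs => rw [hft, add_comm]
        exact kap_add _ _
      rw [this, kap]
  · refine ⟨1 - Int.fract t, by linarith, by linarith, ?_, ?_, ?_⟩
    · have e1 : mu 0 t = (⌊t⌋ : ℝ) + 1 := by
        rw [mu, sub_zero, add_zero, round_eq]
        have : ⌊t + 1 / 2⌋ = ⌊t⌋ + 1 := by
          rw [Int.floor_eq_iff]
          push_cast
          constructor <;> linarith
        rw [this]
        push_cast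
        rfl
      rw [e1]
      have : t - ((⌊t⌋ : ℝ) + 1) = -(1 - Int.fract t) := by linarith
      rw [this, neg_sq]
    · rw [e2]
      congr 1
      linarith
    · have h1 : kap t = kap (Int.fract t) := by
        conv_lhs => rw [hft, add_comm]
        exact kap_add _ _
      rw [h1, kap, ← Real.cos_neg, ← Real.cos_add_two_pi]
      congr 1
      ring

theorem size {x : E 3} (h : ¬ Bad x) : ‖S1 x‖ < ‖S2 x‖ ∨ 2 * ‖S2 x‖ < ‖S1 x‖ := by
  obtain ⟨r, hr0, hr1, h1, h2, h3⟩ := size_r (x 1)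
  have hp3 := Real.pi_gt_three
  have hp4 := Real.pi_lt_four
  obtain ⟨θ, hθ⟩ : ∃ θ, θ = π / 2 - 2 * π * r := ⟨_, rfl⟩
  have hsin : Real.sin θ = kap (x 1) := by
    rw [hθ, Real.sin_pi_div_two_sub, h3]
  have hθ1 : -(π / 2) ≤ θ := by
    rw [hθ]
    nlinarith
  have hθ2 : θ ≤ π / 2 := by
    rw [hθ]
    nlinarith
  have hθpos : 0 < kap (x 1) → 0 < θ := by
    intro hk
    by_contra hcon
    have := Real.sin_nonpos_of_nonpos_of_neg_pi_le (not_lt.1 hcon) (by linarith)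
    linarith
  obtain ⟨e1, he1⟩ : ∃ e, e = 0 + ((1 : ℕ) : ℝ) * w (x 1) + 2 * π * (x 1 - mu 0 (x 1)) ^ 2 -
    2 * π * (x 1) ^ 2 := ⟨_, rfl⟩
  obtain ⟨e2, he2⟩ : ∃ e, e = 4 + ((2 : ℕ) : ℝ) * w (x 1) +
    2 * π * (x 1 - mu (1 / 2) (x 1)) ^ 2 - 2 * π * (x 1) ^ 2 := ⟨_, rfl⟩
  have hS1 : ‖S1 x‖ = chi (x 1 - 0) * Real.exp e1 := by
    rw [S1, norm_M, he1]
  have hS2 : ‖S2 x‖ = chi (x 1 - 1 / 2) * Real.exp e2 := by
    rw [S2, norm_M, he2]
  have hdiff : e2 - e1 = 4 - 32 * kap (x 1) + θ := by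
    rw [he1, he2, h1, h2, hθ, w]
    push_cast
    ring
  rw [hS1, hS2]
  by_cases hk : kap (x 1) ≤ 1 / 8
  · left
    have hc2 : chi (x 1 - 1 / 2) = 1 := by
      rw [chi, kap_half]
      exact Real.smoothTransition.one_of_one_le (by linarith)
    have hc1 : chi (x 1 - 0) ≤ 1 := Real.smoothTransition.le_one _
    rw [hc2, one_mul]
    refine (mul_le_of_le_one_left (Real.exp_pos _).le hc1).trans_lt (Real.exp_lt_exp.2 ?_)
    rcases le_or_gt (kap (x 1)) 0 with h4 | h4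
    · linarith
    · have := hθpos h4
      linarith
  · right
    have hk' : 3 / 16 ≤ kap (x 1) := by
      by_contra hcon
      exact h ⟨not_le.1 hk, not_le.1 hcon⟩
    have hc1 : chi (x 1 - 0) = 1 := by
      rw [chi, sub_zero]
      exact Real.smoothTransition.one_of_one_le (by linarith)
    have hc2 : chi (x 1 - 1 / 2) ≤ 1 := Real.smoothTransition.le_one _
    rw [hc1, one_mul]
    have h5 : chi (x 1 - 1 / 2) * Real.exp e2 ≤ Real.exp e2 :=
      mul_le_of_le_one_left (Real.exp_pos _).le hc2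
    have h6 : 2 * Real.exp e2 < Real.exp e1 := by
      have h7 : 2 * Real.exp e2 = Real.exp (Real.log 2 + e2) := by
        rw [Real.exp_add, Real.exp_log (by norm_num)]
      rw [h7, Real.exp_lt_exp]
      have h8 := Real.log_two_lt_d9
      have h9 := hθpos (by linarith)
      have h10 := Real.mul_le_sin h9.le hθ2
      rw [hsin] at h10
      have h11 : θ ≤ 2 * kap (x 1) := by
        have h12 : 2 / π * θ * (π / 2) = θ := by field_simp
        have h13 := mul_le_mul_of_nonneg_right h10 (by positivity : 0 ≤ π / 2)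
        rw [h12] at h13
        nlinarith
      linarith
    linarith

end Pool.Agent.Lib.MP_c8757e_W3
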